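import Pool.Agent.LibKC98.Defs

/-!
# [KC98 A1] Basic properties of Knuth equivalence (proved)
PLAN: `KEq` is `Relation.EqvGen KStep`; `Relation.EqvGen.refl/symm/trans/rel`. Congruence: induction on `EqvGen`; a
step `KStep (u ++ [..] ++ v) (u ++ [..] ++ v)` becomes the step with `p ++ u` and `v ++ q` (`simpa using KStep.a (p ++ u) (v ++ q) ..`).
`KEq.perm`: induction, each step is a permutation of the three letters (`List.Perm.append_left/right`, `List.Perm.swap`,
`by simp`/`decide`-free).
-/

namespace KC98

theorem KEq.refl (u : List ℕ) : KEq u u := Relation.EqvGen.refl u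

theorem KEq.symm {u v : List ℕ} (h : KEq u v) : KEq v u := Relation.EqvGen.symm _ _ h

theorem KEq.trans {u v w : List ℕ} (h : KEq u v) (h' : KEq v w) : KEq u w :=
  Relation.EqvGen.trans _ _ _ h h'

theorem KEq.cong {u v : List ℕ} (h : KEq u v) (p q : List ℕ) : KEq (p ++ u ++ q) (p ++ v ++ q) := by
  induction h with
  | rel x y hxy =>
    cases hxy with
    | a u v x y z h1 h2 =>
      have := KStep.a (p ++ u) (v ++ q) x y z h1 h2
      exact Relation.EqvGen.rel _ _ (by simpa using this)
    | b u v x y z h1 h2 =>
      have := KStep.b (p ++ u) (v ++ q) x y z h1 h2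
      exact Relation.EqvGen.rel _ _ (by simpa using this)
  | refl x => exact KEq.refl _
  | symm x y _ ih => exact KEq.symm ih
  | trans x y z _ _ ih1 ih2 => exact KEq.trans ih1 ih2

theorem KEq.perm {u v : List ℕ} (h : KEq u v) : u.Perm v := by
  induction h with
  | rel x y hxy =>
    cases hxy with
    | a u v x y z h1 h2 =>
      exact ((List.Perm.swap x z []).cons y |>.append_left u).append_right v
    | b u v x y z h1 h2 =>
      exact ((List.Perm.swap z x [y]).append_left u).append_right v
  | refl x => exact List.Perm.refl _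
  | symm x y _ ih => exact ih.symm
  | trans x y z _ _ ih1 ih2 => exact ih1.trans ih2

/-- the first Knuth relation in context -/
theorem KEq.ka (u v : List ℕ) (x y z : ℕ) (h1 : x < y) (h2 : y ≤ z) :
    KEq (u ++ [y, z, x] ++ v) (u ++ [y, x, z] ++ v) := Relation.EqvGen.rel _ _ (KStep.a u v x y z h1 h2)

/-- the second Knuth relation in context -/
theorem KEq.kb (u v : List ℕ) (x y z : ℕ) (h1 : x ≤ y) (h2 : y < z) :
    KEq (u ++ [x, z, y] ++ v) (u ++ [z, x, y] ++ v) := Relation.EqvGen.rel _ _ (KStep.b u v x y z h1 h2)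

end KC98
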