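import Pool.Agent.LibKC98.Defs

/-!
# [KC98 A2] SHORT/MEDIUM. Knuth equivalence preserves the lengths of weakly increasing subwords
PLAN: show for one step `KStep w w'` both `Inc w r → Inc w' r` and `Inc w' r → Inc w r`, then induction on `EqvGen`
(prove the iff `∀ r, Inc u r ↔ Inc v r`).
Step: a sublist `l` of `u ++ [p, q, s] ++ v` is `l1 ++ l2 ++ l3` with `l1 <+ u`, `l2 <+ [p, q, s]`, `l3 <+ v`
(`List.sublist_append_iff` twice); `l2` is one of 8 lists (`List.sublist_cons_iff` / `simp`), sorted.
Case a, `[y, z, x]`, `x < y ≤ z`: sorted sublists are `[] , [y], [z], [x], [y, z]`, all of them sublists of `[y, x, z]`.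
  Back: sorted sublists of `[y, x, z]` are `[], [y], [x], [z], [y, z], [x, z]`; all but `[x, z]` are sublists of `[y, z, x]`;
  replace `[x, z]` by `[y, z]` (letters of `l1` are `≤ x < y`).
Case b, `[x, z, y]`, `x ≤ y < z`: sorted sublists `[], [x], [z], [y], [x, z], [x, y]`; all but `[x, z]` are sublists of `[z, x, y]`;
  replace `[x, z]` by `[x, y]` (letters of `l3` are `≥ z > y`).  Back: sorted sublists of `[z, x, y]` are
  `[], [z], [x], [y], [x, y]`, all sublists of `[x, z, y]`.
-/

namespace KC98

private theorem A2_ext {M M' : List ℕ} (u v : List ℕ) (r : ℕ)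
    (h : ∀ l1 l2 l3 : List ℕ, l2.Sublist M → (l1 ++ l2 ++ l3).Pairwise (· ≤ ·) →
      ∃ l2' : List ℕ, l2'.Sublist M' ∧ l2'.length = l2.length ∧ (l1 ++ l2' ++ l3).Pairwise (· ≤ ·))
    (hi : Inc (u ++ M ++ v) r) : Inc (u ++ M' ++ v) r := by
  obtain ⟨l, hl, hs, hr⟩ := hi
  obtain ⟨l12, l3, rfl, h12, h3⟩ := List.sublist_append_iff.1 hl
  obtain ⟨l1, l2, rfl, h1, h2⟩ := List.sublist_append_iff.1 h12
  obtain ⟨l2', a, b, c⟩ := h l1 l2 l3 h2 hs
  refine ⟨l1 ++ l2' ++ l3, (h1.append a).append h3, c, ?_⟩
  rw [← hr]
  simp [b]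

private theorem A2_sub3 {p q s : ℕ} {l : List ℕ} (h : l.Sublist [p, q, s]) :
    l = [] ∨ l = [p] ∨ l = [q] ∨ l = [s] ∨ l = [p, q] ∨ l = [p, s] ∨ l = [q, s] ∨ l = [p, q, s] := by
  rcases List.sublist_cons_iff.1 h with h1 | ⟨a, ha, h1⟩ <;>
  rcases List.sublist_cons_iff.1 h1 with h2 | ⟨b, hb, h2⟩ <;>
  rcases List.sublist_cons_iff.1 h2 with h3 | ⟨c, hc, h3⟩ <;>
  · have h' := List.sublist_nil.1 h3
    subst h'
    simp_all

private theorem A2_same {M' l1 l2 l3 : List ℕ} (h : l2.Sublist M')
    (hs : (l1 ++ l2 ++ l3).Pairwise (· ≤ ·)) :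
    ∃ l2' : List ℕ, l2'.Sublist M' ∧ l2'.length = l2.length ∧ (l1 ++ l2' ++ l3).Pairwise (· ≤ ·) :=
  ⟨l2, h, rfl, hs⟩

private theorem A2_s1 {p q s : ℕ} : [p].Sublist [p, q, s] := by simp
private theorem A2_s2 {p q s : ℕ} : [q].Sublist [p, q, s] := by simp
private theorem A2_s3 {p q s : ℕ} : [s].Sublist [p, q, s] := by simp
private theorem A2_s12 {p q s : ℕ} : [p, q].Sublist [p, q, s] :=
  List.Sublist.cons_cons p (List.Sublist.cons_cons q (List.nil_sublist _))
private theorem A2_s13 {p q s : ℕ} : [p, s].Sublist [p, q, s] :=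
  List.Sublist.cons_cons p (List.Sublist.cons q (List.Sublist.refl _))
private theorem A2_s23 {p q s : ℕ} : [q, s].Sublist [p, q, s] :=
  List.Sublist.cons p (List.Sublist.refl _)

/-- the middle part of a sorted word is sorted -/
private theorem A2_mid {l1 l2 l3 : List ℕ} (hs : (l1 ++ l2 ++ l3).Pairwise (· ≤ ·)) :
    l2.Pairwise (· ≤ ·) := by
  rw [List.append_assoc] at hs
  exact (List.pairwise_append.1 (List.pairwise_append.1 hs).2.1).1

private theorem A2_step {w w' : List ℕ} (h : KStep w w') (r : ℕ) : Inc w r ↔ Inc w' r := by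
  cases h with
  | a u v x y z h1 h2 =>
    constructor
    · refine A2_ext u v r ?_
      intro l1 l2 l3 hl hs
      have hm := A2_mid hs
      rcases A2_sub3 hl with rfl | rfl | rfl | rfl | rfl | rfl | rfl | rfl
      · exact A2_same (List.nil_sublist _) hs
      · exact A2_same A2_s1 hs
      · exact A2_same A2_s3 hs
      · exact A2_same A2_s2 hs
      · exact A2_same A2_s13 hs
      · simp at hm; omega
      · simp at hm; omega
      · simp at hm; omega
    · refine A2_ext u v r ?_
      intro l1 l2 l3 hl hs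
      have hm := A2_mid hs
      rcases A2_sub3 hl with rfl | rfl | rfl | rfl | rfl | rfl | rfl | rfl
      · exact A2_same (List.nil_sublist _) hs
      · exact A2_same A2_s1 hs
      · exact A2_same A2_s3 hs
      · exact A2_same A2_s2 hs
      · simp at hm; omega
      · exact A2_same A2_s12 hs
      · refine ⟨[y, z], A2_s12, rfl, ?_⟩
        rw [List.pairwise_append, List.pairwise_append] at hs ⊢
        obtain ⟨⟨a1, a2, a3⟩, a4, a5⟩ := hs
        refine ⟨⟨a1, by simpa using h2, ?_⟩, a4, ?_⟩
        · intro a ha b hb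
          have hax : a ≤ x := a3 a ha x (by simp)
          simp only [List.mem_cons, List.not_mem_nil, or_false] at hb
          rcases hb with rfl | rfl <;> omega
        · intro a ha b hb
          have hzb : z ≤ b := a5 z (by simp) b hb
          simp only [List.mem_append, List.mem_cons, List.not_mem_nil, or_false] at ha
          rcases ha with ha | rfl | rfl
          · exact a5 a (by simp [ha]) b hb
          · omega
          · omega
      · simp at hm; omega
  | b u v x y z h1 h2 =>
    constructor
    · refine A2_ext u v r ?_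
      intro l1 l2 l3 hl hs
      have hm := A2_mid hs
      rcases A2_sub3 hl with rfl | rfl | rfl | rfl | rfl | rfl | rfl | rfl
      · exact A2_same (List.nil_sublist _) hs
      · exact A2_same A2_s2 hs
      · exact A2_same A2_s1 hs
      · exact A2_same A2_s3 hs
      · refine ⟨[x, y], A2_s23, rfl, ?_⟩
        rw [List.pairwise_append, List.pairwise_append] at hs ⊢
        obtain ⟨⟨a1, a2, a3⟩, a4, a5⟩ := hs
        refine ⟨⟨a1, by simpa using h1, ?_⟩, a4, ?_⟩
        · intro a ha b hb
          have hax : a ≤ x := a3 a ha x (by simp)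
          simp only [List.mem_cons, List.not_mem_nil, or_false] at hb
          rcases hb with rfl | rfl <;> omega
        · intro a ha b hb
          have hzb : z ≤ b := a5 z (by simp) b hb
          simp only [List.mem_append, List.mem_cons, List.not_mem_nil, or_false] at ha
          rcases ha with ha | rfl | rfl
          · exact a5 a (by simp [ha]) b hb
          · omega
          · omega
      · exact A2_same A2_s23 hs
      · simp at hm; omega
      · simp at hm; omega
    · refine A2_ext u v r ?_
      intro l1 l2 l3 hl hs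
      have hm := A2_mid hs
      rcases A2_sub3 hl with rfl | rfl | rfl | rfl | rfl | rfl | rfl | rfl
      · exact A2_same (List.nil_sublist _) hs
      · exact A2_same A2_s2 hs
      · exact A2_same A2_s1 hs
      · exact A2_same A2_s3 hs
      · simp at hm; omega
      · simp at hm; omega
      · exact A2_same A2_s13 hs
      · simp at hm; omega

theorem Inc.keq {u v : List ℕ} (h : KEq u v) (r : ℕ) : Inc u r ↔ Inc v r := by
  induction h with
  | rel x y hxy => exact A2_step hxy r
  | refl x => exact Iff.rfl
  | symm x y _ ih => exact ih.symm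
  | trans x y z _ _ ih1 ih2 => exact ih1.trans ih2

end KC98
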