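import Pool.Agent.LibKC98.A1

/-!
# [KC98 A3] SHORT/MEDIUM. Columns commute with 1
PLAN `col_one`: induction on `c` from the left. `c = []` trivial (`1 1`). `c = z :: c'`: the letter after `z` in `z :: c' ++ [1]`
is some `y < z` with `1 ≤ y` (`y` = head of `c'` or `1`): `1 z y ... ≡ z 1 y ...` (`KEq.kb [] _ 1 y z`), then the induction
hypothesis for `c'` in the context `z :: _` (`KEq.cong _ [z] []`).
PLAN `cols_one`: first `aux : KEq (cs.flatten ++ List.replicate b 1) ((cs.map (fun c => c ++ [1])).flatten ++ List.replicate (b - cs.length) 1)`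
for `cs.length ≤ b`, by induction on `cs` from the left: `c_1 C 1^b`, by induction `C 1^(b-1) ≡ C' 1^(..)`... precisely
`c ++ C ++ 1^(b)` with `C ++ 1^b ≡ C' ++ 1^(b - m)` and `b - m ≥ 1`, and `1 (c 1) ≡ (c 1) 1` lets a 1 pass every `(c_i 1)`:
so `C' ++ 1^(b-m) ≡ [1] ++ C' ++ 1^(b-m-1)` (move one 1 to the left through all factors `c_i 1` by `col_one`), giving
`c ++ [1] ++ C' ++ 1^(b-m-1)`.  Then `1 (c_1 1) ... (c_m 1) 1^(b-m) ≡ (c_1 1) ... (c_m 1) 1^(b-m+1)` by `col_one` again, and go back.
A useful intermediate lemma: `KEq (1 :: (cs.map (fun c => c ++ [1])).flatten) ((cs.map (fun c => c ++ [1])).flatten ++ [1])`.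
-/

namespace KC98

theorem col_one (c : List ℕ) (h : c.Pairwise (· > ·)) (h1 : ∀ x ∈ c, 1 < x) :
    KEq (1 :: (c ++ [1])) (c ++ [1] ++ [1]) := by
  induction c with
  | nil => exact KEq.refl _
  | cons z c' ih =>
    rw [List.pairwise_cons] at h
    have h2 := ih h.2 (fun x hx => h1 x (List.mem_cons_of_mem _ hx))
    have h3 : KEq (1 :: (z :: c' ++ [1])) (z :: (1 :: (c' ++ [1]))) := by
      cases c' with
      | nil =>
        have := KEq.kb [] [] 1 1 z le_rfl (h1 z (by simp))
        simpa using this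
      | cons y c'' =>
        have h4 : y < z := h.1 y (by simp)
        have h5 : 1 ≤ y := (h1 y (by simp)).le
        have := KEq.kb [] (c'' ++ [1]) 1 y z h5 h4
        simpa using this
    have h6 := KEq.cong h2 [z] []
    simp only [List.append_nil] at h6
    exact h3.trans (by simpa using h6)


private theorem A3_pass (cs : List (List ℕ)) (h : ∀ c ∈ cs, c.Pairwise (· > ·)) (h1 : ∀ c ∈ cs, ∀ x ∈ c, 1 < x) :
    KEq (1 :: (cs.map (fun c => c ++ [1])).flatten) ((cs.map (fun c => c ++ [1])).flatten ++ [1]) := by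
  induction cs with
  | nil => exact KEq.refl _
  | cons c cs ih =>
    have h2 := col_one c (h c (by simp)) (h1 c (by simp))
    have h3 := ih (fun d hd => h d (List.mem_cons_of_mem _ hd)) (fun d hd => h1 d (List.mem_cons_of_mem _ hd))
    have h4 := KEq.cong h2 [] (cs.map (fun c => c ++ [1])).flatten
    have h5 := KEq.cong h3 (c ++ [1]) []
    have h6 := h4.trans (by simpa using h5)
    simpa using h6

private theorem A3_pull (cs : List (List ℕ)) (h : ∀ c ∈ cs, c.Pairwise (· > ·)) (h1 : ∀ c ∈ cs, ∀ x ∈ c, 1 < x)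
    (b : ℕ) (hb : cs.length ≤ b) :
    KEq (cs.flatten ++ List.replicate b 1)
      ((cs.map (fun c => c ++ [1])).flatten ++ List.replicate (b - cs.length) 1) := by
  induction cs with
  | nil => exact KEq.refl _
  | cons c cs ih =>
    have h' : ∀ c ∈ cs, c.Pairwise (· > ·) := fun d hd => h d (List.mem_cons_of_mem _ hd)
    have h1' : ∀ c ∈ cs, ∀ x ∈ c, 1 < x := fun d hd => h1 d (List.mem_cons_of_mem _ hd)
    rw [List.length_cons] at hb
    have h2 := KEq.cong (ih h' h1' (by omega)) c []
    have h3 := KEq.cong (A3_pass cs h' h1').symm c (List.replicate (b - (cs.length + 1)) 1)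
    have e : List.replicate (b - cs.length) 1 = 1 :: List.replicate (b - (cs.length + 1)) 1 := by
      rw [← List.replicate_succ]
      congr 1
      omega
    rw [e] at h2
    have h4 := h2.trans (by simpa using h3)
    rw [List.length_cons]
    simpa using h4

theorem cols_one (cs : List (List ℕ)) (h : ∀ c ∈ cs, c.Pairwise (· > ·)) (h1 : ∀ c ∈ cs, ∀ x ∈ c, 1 < x)
    (b : ℕ) (hb : cs.length ≤ b) :
    KEq (1 :: (cs.flatten ++ List.replicate b 1)) (cs.flatten ++ List.replicate (b + 1) 1) := by
  have h2 := KEq.cong (A3_pull cs h h1 b hb) [1] []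
  have h3 := KEq.cong (A3_pass cs h h1) [] (List.replicate (b - cs.length) 1)
  have h4 := (A3_pull cs h h1 (b + 1) (by omega)).symm
  have e : List.replicate (b + 1 - cs.length) 1 = 1 :: List.replicate (b - cs.length) 1 := by
    rw [← List.replicate_succ]
    congr 1
    omega
  rw [e] at h4
  have h5 := h2.trans (by simpa using h3)
  have h6 := h5.trans (by simpa using h4)
  simpa using h6

end KC98
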