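import Pool.Agent.LibKC98.A1

/-!
# [KC98 A4] MEDIUM. Bumping a letter through a column
`c = z_r > ... > z_1` (a nonempty strictly decreasing word), `x ≤ z_r`.  Let `z_i` be the smallest letter of `c` with `z_i ≥ x`;
then `x c ≡ c' y`, `y = z_i`, `c'` = `c` with `z_i` replaced by `x`.  So `min c' = min(x, min c)` and `min c' ≤ y`.
PLAN: induction on `c`.  `c = [z]`: `x ≤ z`, `c' = [x]`, `y = z`, nothing to do.
`c = z :: w :: d`, `z > w`.  Case `x ≤ w`: `x z w d ≡ z x w d` (`KEq.kb`, `x ≤ w < z`), induction for `w :: d` in the context `z :: _`: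
`x w d ≡ c1' y`, `c' = z :: c1'`; `c'` is strictly decreasing because the letters of `c1' ++ [y]` are a permutation of `x :: w :: d`
(`KEq.perm`), all `< z` (`x ≤ w < z`).
Case `w < x ≤ z`: `c' = x :: w :: d`, `y = z`: `x z w d ≡ x w z d` (`KEq.ka`, `w < x ≤ z`), then `z` moves to the right end:
lemma `push : (w :: d) strictly decreasing, w < z → KEq (w :: z :: d) (w :: d ++ [z])`, by induction on `d`:
`w z d1 ≡ w d1 z` (`KEq.ka`, `d1 < w ≤ z`), then the context `[w]` and `d1 < z`.
-/

namespace KC98

private theorem A4_push (d : List ℕ) : ∀ (w z : ℕ), (w :: d).Pairwise (· > ·) → w < z →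
    KEq (w :: z :: d) (w :: (d ++ [z])) := by
  induction d with
  | nil => intro w z _ _; exact KEq.refl _
  | cons d1 d' ih =>
    intro w z h hwz
    have h' := List.pairwise_cons.1 h
    have hd1 : d1 < w := h'.1 d1 (by simp)
    have e1 := KEq.ka [] d' d1 w z hd1 hwz.le
    have e2 := (ih d1 z h'.2 (hd1.trans hwz)).cong [w] []
    refine KEq.trans (by simpa using e1) (by simpa using e2)

private theorem A4_getLast_le (w : ℕ) (d : List ℕ) (h : (w :: d).Pairwise (· > ·)) :
    (w :: d).getLast (by simp) ≤ w := by
  rcases List.mem_cons.1 (List.getLast_mem (l := w :: d) (by simp)) with h1 | h1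
  · exact h1.le
  · exact ((List.pairwise_cons.1 h).1 _ h1).le

theorem bump (c : List ℕ) (hc : c ≠ []) (h : c.Pairwise (· > ·)) (x : ℕ) (hx : x ≤ c.head hc) :
    ∃ (c' : List ℕ) (hc' : c' ≠ []) (y : ℕ), c'.Pairwise (· > ·) ∧ KEq (x :: c) (c' ++ [y]) ∧
      c'.getLast hc' = min x (c.getLast hc) ∧ c'.getLast hc' ≤ y := by
  induction c with
  | nil => exact absurd rfl hc
  | cons z c1 ih =>
    cases c1 with
    | nil =>
      simp only [List.head_cons] at hx
      refine ⟨[x], by simp, z, by simp, by simpa using KEq.refl _, ?_, ?_⟩
      · simp [hx]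
      · simpa using hx
    | cons w d =>
      simp only [List.head_cons] at hx
      have h' := List.pairwise_cons.1 h
      have hwz : w < z := h'.1 w (by simp)
      by_cases hxw : x ≤ w
      · obtain ⟨c1', hc1', y, hp, hk, hl, hy⟩ := ih (by simp) h'.2 (by simpa using hxw)
        refine ⟨z :: c1', by simp, y, ?_, ?_, ?_, ?_⟩
        · refine List.pairwise_cons.2 ⟨?_, hp⟩
          intro a ha
          have ha' : a ∈ x :: w :: d := hk.perm.mem_iff.2 (by simp [ha])
          rcases List.mem_cons.1 ha' with h1 | h1
          · subst h1; exact lt_of_le_of_lt hxw hwz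
          · exact h'.1 a h1
        · have e1 := KEq.kb [] d x w z hxw hwz
          have e2 := hk.cong [z] []
          exact KEq.trans (by simpa using e1) (by simpa using e2)
        · have e : (z :: w :: d).getLast hc = (w :: d).getLast (by simp) :=
            List.getLast_cons (by simp)
          rw [List.getLast_cons hc1', hl, e]
        · rw [List.getLast_cons hc1']; exact hy
      · push Not at hxw
        refine ⟨x :: w :: d, by simp, z, ?_, ?_, ?_, ?_⟩
        · refine List.pairwise_cons.2 ⟨?_, h'.2⟩
          intro a ha
          rcases List.mem_cons.1 ha with h1 | h1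
          · subst h1; exact hxw
          · exact ((List.pairwise_cons.1 h'.2).1 a h1).trans hxw
        · have e1 := KEq.ka [] d w x z hxw hx
          have e2 := (A4_push d w z h'.2 hwz).cong [x] []
          exact KEq.trans (by simpa using e1) (by simpa using e2)
        · have := A4_getLast_le w d h'.2
          have e : (z :: w :: d).getLast hc = (w :: d).getLast (by simp) :=
            List.getLast_cons (by simp)
          have e' : (x :: w :: d).getLast (by simp) = (w :: d).getLast (by simp) :=
            List.getLast_cons (by simp)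
          rw [e, e']
          exact (min_eq_right (by omega)).symm
        · have := A4_getLast_le w d h'.2
          have e' : (x :: w :: d).getLast (by simp) = (w :: d).getLast (by simp) :=
            List.getLast_cons (by simp)
          rw [e']
          omega

end KC98
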