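import Pool.Agent.LibKC98.A2
import Pool.Agent.LibKC98.A4

/-!
# [KC98 A5] MEDIUM. Every word is Knuth equivalent to a product of columns, at most as many as the longest weakly
increasing subword (easy half of Schensted's theorem)
PLAN: (1) `insert`: if `cs` is a list of nonempty strictly decreasing words with `(cs.map (fun c => c.getLastD 0)).Pairwise (· ≤ ·)`,
then for every `x` there is such a list `cs'` with `KEq (x :: cs.flatten) cs'.flatten` and: every `m` with `m ≤ x` and
`m ≤ d.getLastD 0` for all `d ∈ cs` satisfies `m ≤ d.getLastD 0` for all `d ∈ cs'`.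
Induction on `cs`.  `[]`: `cs' = [[x]]`.  `c :: cs`: if `x > c.head`, `cs' = (x :: c) :: cs` (same minima).  Otherwise `bump`:
`x c ≡ c' y`, `min c' = min x (min c) ≤ y`, apply the induction hypothesis to `y` and `cs`, get `cs1`, `cs' = c' :: cs1`; the minima of `cs1` are
`≥ min c'` because `min c' ≤ y` and `min c' ≤ min c ≤` minima of `cs` (this is the extra clause, with `m = min c'`).
(2) `exists_cols`: induction on the word `v` with `insert`; then the minima of the columns form a weakly increasing sublist of `cs.flatten`
(take the last letter of each column: induction, `List.sublist_append..`), of length `cs.length`; so `Inc cs.flatten cs.length`,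
and `Inc v cs.length` by `Inc.keq`.
-/

namespace KC98

/-- the columns: nonempty, strictly decreasing, with weakly increasing minima -/
private def A5_ok (cs : List (List ℕ)) : Prop :=
  (∀ c ∈ cs, c ≠ [] ∧ c.Pairwise (· > ·)) ∧ (cs.map (fun c => c.getLastD 0)).Pairwise (· ≤ ·)

private theorem A5_getLastD {c : List ℕ} (hc : c ≠ []) : c.getLastD 0 = c.getLast hc := by
  rw [List.getLastD_eq_getLast?, List.getLast?_eq_getLast_of_ne_nil hc]
  rfl

private theorem A5_head_max {c : List ℕ} (hc : c ≠ []) (h : c.Pairwise (· > ·)) {a : ℕ} (ha : a ∈ c) :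
    a ≤ c.head hc := by
  cases c with
  | nil => exact absurd rfl hc
  | cons b d =>
    rw [List.head_cons]
    rcases List.mem_cons.1 ha with h1 | h1
    · exact h1.le
    · exact (List.rel_of_pairwise_cons h h1).le

private theorem A5_insert (cs : List (List ℕ)) :
    A5_ok cs → ∀ x : ℕ, ∃ cs' : List (List ℕ), A5_ok cs' ∧ KEq (x :: cs.flatten) cs'.flatten ∧
      ∀ m : ℕ, m ≤ x → (∀ d ∈ cs, m ≤ d.getLastD 0) → ∀ d ∈ cs', m ≤ d.getLastD 0 := by
  induction cs with
  | nil =>
    intro _ x
    refine ⟨[[x]], ⟨?_, ?_⟩, ?_, ?_⟩
    · intro c hc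
      rw [List.mem_singleton] at hc
      subst hc
      exact ⟨List.cons_ne_nil _ _, List.pairwise_singleton _ _⟩
    · rw [List.map_cons, List.map_nil]
      exact List.pairwise_singleton _ _
    · exact KEq.refl _
    · intro m hm _ d hd
      rw [List.mem_singleton] at hd
      subst hd
      exact hm
  | cons c cs ih =>
    intro hok x
    obtain ⟨hcol, hmin⟩ := hok
    have hc := (hcol c List.mem_cons_self).1
    have hcp := (hcol c List.mem_cons_self).2
    rw [List.map_cons, List.pairwise_cons] at hmin
    have hok' : A5_ok cs := ⟨fun d hd => hcol d (List.mem_cons_of_mem _ hd), hmin.2⟩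
    by_cases hx : c.head hc < x
    · refine ⟨(x :: c) :: cs, ⟨?_, ?_⟩, ?_, ?_⟩
      · intro d hd
        rcases List.mem_cons.1 hd with h1 | h1
        · subst h1
          refine ⟨List.cons_ne_nil _ _, List.pairwise_cons.2 ⟨fun a ha => ?_, hcp⟩⟩
          exact lt_of_le_of_lt (A5_head_max hc hcp ha) hx
        · exact hok'.1 d h1
      · rw [List.map_cons, List.pairwise_cons]
        have h2 : (x :: c).getLastD 0 = c.getLastD 0 := by
          rw [A5_getLastD (List.cons_ne_nil x c), A5_getLastD hc, List.getLast_cons hc]
        rw [h2]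
        exact hmin
      · rw [List.flatten_cons, List.flatten_cons]
        exact KEq.refl _
      · intro m hm hd d hd'
        rcases List.mem_cons.1 hd' with h1 | h1
        · subst h1
          rw [A5_getLastD (List.cons_ne_nil x c), List.getLast_cons hc, ← A5_getLastD hc]
          exact hd c List.mem_cons_self
        · exact hd d (List.mem_cons_of_mem _ h1)
    · obtain ⟨c', hc', y, hp', hk, hl, hy⟩ := bump c hc hcp x (not_lt.1 hx)
      obtain ⟨cs1, hok1, hk1, hm1⟩ := ih hok' y
      refine ⟨c' :: cs1, ⟨?_, ?_⟩, ?_, ?_⟩
      · intro d hd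
        rcases List.mem_cons.1 hd with h1 | h1
        · subst h1
          exact ⟨hc', hp'⟩
        · exact hok1.1 d h1
      · rw [List.map_cons, List.pairwise_cons]
        refine ⟨?_, hok1.2⟩
        intro a ha
        obtain ⟨d, hd, rfl⟩ := List.mem_map.1 ha
        rw [A5_getLastD hc']
        refine hm1 _ hy (fun e he => ?_) d hd
        rw [hl]
        refine (min_le_right _ _).trans ?_
        rw [← A5_getLastD hc]
        exact hmin.1 _ (List.mem_map.2 ⟨e, he, rfl⟩)
      · rw [List.flatten_cons, List.flatten_cons]
        have h1 : KEq (x :: (c ++ cs.flatten)) (c' ++ (y :: cs.flatten)) := by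
          have := hk.cong [] cs.flatten
          simpa using this
        have h2 : KEq (c' ++ (y :: cs.flatten)) (c' ++ cs1.flatten) := by
          have := hk1.cong c' []
          simpa using this
        exact h1.trans h2
      · intro m hm hd d hd'
        have h3 : m ≤ c'.getLast hc' := by
          rw [hl]
          refine le_min hm ?_
          rw [← A5_getLastD hc]
          exact hd c List.mem_cons_self
        rcases List.mem_cons.1 hd' with h1 | h1
        · subst h1
          rw [A5_getLastD hc']
          exact h3
        · exact hm1 m (h3.trans hy) (fun e he => hd e (List.mem_cons_of_mem _ he)) d h1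

private theorem A5_sub (cs : List (List ℕ)) (h : ∀ c ∈ cs, c ≠ []) :
    (cs.map (fun c => c.getLastD 0)).Sublist cs.flatten := by
  induction cs with
  | nil => exact List.Sublist.refl _
  | cons c cs ih =>
    rw [List.map_cons, List.flatten_cons]
    have hc := h c List.mem_cons_self
    have h1 : [c.getLastD 0].Sublist c := by
      rw [List.singleton_sublist, A5_getLastD hc]
      exact List.getLast_mem hc
    have h2 := h1.append (ih fun d hd => h d (List.mem_cons_of_mem _ hd))
    simpa using h2

private theorem A5_main (v : List ℕ) : ∃ cs : List (List ℕ), A5_ok cs ∧ KEq v cs.flatten := by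
  induction v with
  | nil =>
    refine ⟨[], ⟨?_, ?_⟩, KEq.refl _⟩
    · intro c hc
      exact absurd hc List.not_mem_nil
    · exact List.Pairwise.nil
  | cons x v ih =>
    obtain ⟨cs, hok, hk⟩ := ih
    obtain ⟨cs', hok', hk', -⟩ := A5_insert cs hok x
    refine ⟨cs', hok', KEq.trans ?_ hk'⟩
    have := hk.cong [x] []
    simpa using this

theorem exists_cols (v : List ℕ) :
    ∃ cs : List (List ℕ), (∀ c ∈ cs, c.Pairwise (· > ·)) ∧ KEq v cs.flatten ∧ Inc v cs.length := by
  obtain ⟨cs, hok, hk⟩ := A5_main v
  refine ⟨cs, fun c hc => (hok.1 c hc).2, hk, ?_⟩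
  rw [Inc.keq hk]
  refine ⟨cs.map (fun c => c.getLastD 0), A5_sub cs (fun c hc => (hok.1 c hc).1), hok.2, ?_⟩
  rw [List.length_map]

end KC98
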