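import Pool.Agent.LibKC98.A3
import Pool.Agent.LibKC98.A5

/-!
# [KC98 A6] SHORT/MEDIUM. Words with the suffix condition commute with 1
PLAN: claim: if `Good w` and all letters are `≥ 1` then `w ≡ v ++ 1^a`, `v = w.filter (1 < ·)`, `a = w.count 1`.  Induction on `w`
(suffixes of `w` are suffixes of `x :: w`).  `x > 1`: context `[x]`.  `x = 1`: need `1 v 1^a ≡ v 1^(a+1)` where every weakly increasing
sublist of `v` has length `≤ a` (`v` is a sublist of `w`, `Good w` for the suffix `w`): `exists_cols v` gives `v ≡ cs.flatten`,
`cs.length ≤ a` (from `Inc v cs.length`), letters of the columns are letters of `v` (`KEq.perm`), so `> 1`; use `cols_one` in both directions of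
`KEq.cong`.
Then `Cent w`: `1 w`: `1 :: w` is again Good?  not needed: `1 w ≡ 1 v 1^a ≡ v 1^(a+1)` by the same argument (`w` itself is a suffix), and
`w 1 ≡ v 1^a 1 = v 1^(a+1)`.
-/

namespace KC98

private theorem A6_move (v : List ℕ) (a : ℕ) (hv : ∀ x ∈ v, 1 < x)
    (hinc : ∀ l : List ℕ, l.Sublist v → l.Pairwise (· ≤ ·) → l.length ≤ a) :
    KEq (1 :: (v ++ List.replicate a 1)) (v ++ List.replicate (a + 1) 1) := by
  obtain ⟨cs, hcs, hk, l, hl1, hl2, hl3⟩ := exists_cols v
  have hlen : cs.length ≤ a := by
    have := hinc l hl1 hl2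
    omega
  have h1 : ∀ c ∈ cs, ∀ x ∈ c, 1 < x := by
    intro c hc x hx
    exact hv x (hk.perm.mem_iff.mpr (List.mem_flatten.mpr ⟨c, hc, hx⟩))
  have hc := cols_one cs hcs h1 a hlen
  have hA := hk.cong [1] (List.replicate a 1)
  have hB := hk.cong [] (List.replicate (a + 1) 1)
  simp only [List.nil_append, List.singleton_append, List.cons_append] at hA hB
  exact (hA.trans hc).trans hB.symm

private theorem A6_sub (w : List ℕ) (h : Good w) :
    ∀ l : List ℕ, l.Sublist (w.filter (fun x => 1 < x)) → l.Pairwise (· ≤ ·) →
      l.length ≤ w.count 1 := by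
  intro l hl hp
  refine h w (List.suffix_refl w) l (hl.trans List.filter_sublist) hp ?_
  intro x hx
  simpa using (List.mem_filter.mp (hl.subset hx)).2

private theorem A6_normal (w : List ℕ) (h1 : ∀ x ∈ w, 1 ≤ x) (h : Good w) :
    KEq w (w.filter (fun x => 1 < x) ++ List.replicate (w.count 1) 1) := by
  induction w with
  | nil => exact KEq.refl _
  | cons x w ih =>
    have hg : Good w := fun s hs => h s (hs.trans (List.suffix_cons x w))
    have hih := ih (fun y hy => h1 y (List.mem_cons_of_mem x hy)) hg
    have hx : 1 ≤ x := h1 x List.mem_cons_self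
    have hA := hih.cong [x] []
    simp only [List.append_nil, List.singleton_append] at hA
    rcases Nat.lt_or_eq_of_le hx with hx1 | hx1
    · have e1 : (x :: w).filter (fun x => 1 < x) = x :: w.filter (fun x => 1 < x) := by
        simp [hx1]
      have e2 : (x :: w).count 1 = w.count 1 := by
        rw [List.count_cons_of_ne]
        omega
      rw [e1, e2]
      exact hA
    · subst hx1
      have e1 : (1 :: w).filter (fun x => 1 < x) = w.filter (fun x => 1 < x) := by
        simp
      have e2 : (1 :: w).count 1 = w.count 1 + 1 := by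
        rw [List.count_cons_self]
      rw [e1, e2]
      refine hA.trans (A6_move _ _ ?_ (A6_sub w hg))
      intro y hy
      simpa using (List.mem_filter.mp hy).2

theorem cent_of_good (w : List ℕ) (h1 : ∀ x ∈ w, 1 ≤ x) (h : Good w) : Cent w := by
  have hn := A6_normal w h1 h
  have hA := hn.cong [1] []
  have hB := hn.cong [] [1]
  have hm := A6_move (w.filter (fun x => 1 < x)) (w.count 1)
    (fun y hy => by simpa using (List.mem_filter.mp hy).2) (A6_sub w h)
  simp only [List.append_nil, List.nil_append, List.singleton_append] at hA hB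
  have e : w.filter (fun x => 1 < x) ++ List.replicate (w.count 1) 1 ++ [1] =
      w.filter (fun x => 1 < x) ++ List.replicate (w.count 1 + 1) 1 := by
    rw [List.append_assoc, List.replicate_succ']
  rw [e] at hB
  exact (hA.trans hm).trans hB.symm

end KC98
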