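import Pool.Agent.LibKC98.A2

/-!
# [KC98 A7] SHORT. If `w` commutes with 1 then no weakly increasing subword is longer than the number of 1s
PLAN: let `m` be the largest length of a weakly increasing sublist `l` of `w` (lengths are `≤ w.length`; `Nat.find`/`Nat.findGreatest` or
strong induction: it suffices to show: `Inc w m → ¬ Inc w (m + 1) → m ≤ w.count 1`).  `1 :: l` is weakly increasing (letters `≥ 1`) and a sublist of
`1 :: w`, so `Inc (1 :: w) (m + 1)`, so `Inc (w ++ [1]) (m + 1)` by `Inc.keq`.  A sublist of `w ++ [1]` is `l1 ++ l2`, `l1 <+ w`, `l2 <+ [1]`;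
`l2 = []` contradicts `¬ Inc w (m + 1)`; `l2 = [1]`: all letters of `l1` are `≤ 1`, so `= 1`, so `l1.length ≤ w.count 1`
(`List.Sublist.count_le`, `List.eq_replicate..`), and `m + 1 = l1.length + 1`.
-/

namespace KC98

private theorem A7_step (w : List ℕ) (h1 : ∀ x ∈ w, 1 ≤ x) (h : Cent w) (m : ℕ) (hm : Inc w m)
    (hm' : ¬ Inc w (m + 1)) : m ≤ w.count 1 := by
  obtain ⟨l, hl, hs, hlen⟩ := hm
  have h2 : Inc (1 :: w) (m + 1) := by
    refine ⟨1 :: l, hl.cons_cons 1, ?_, by rw [List.length_cons, hlen]⟩
    rw [List.pairwise_cons]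
    exact ⟨fun x hx => h1 x (hl.subset hx), hs⟩
  have h3 : Inc (w ++ [1]) (m + 1) := (Inc.keq h (m + 1)).1 h2
  obtain ⟨l', hl', hs', hlen'⟩ := h3
  rw [List.sublist_append_iff] at hl'
  obtain ⟨l1, l2, rfl, hl1, hl2⟩ := hl'
  rcases l2 with _ | ⟨y, l3⟩
  · exfalso
    apply hm'
    rw [List.append_nil] at hs' hlen'
    exact ⟨l1, hl1, hs', hlen'⟩
  · have hle : (y :: l3).length ≤ 1 := hl2.length_le
    have hy : y = 1 := by
      have := hl2.subset (List.mem_cons_self (a := y) (l := l3))
      simpa using this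
    have hl3 : l3 = [] := by
      rw [List.length_cons] at hle
      exact List.eq_nil_of_length_eq_zero (by omega)
    subst hy hl3
    rw [List.pairwise_append] at hs'
    have hall : ∀ x ∈ l1, x = 1 := by
      intro x hx
      have ha := hs'.2.2 x hx 1 (List.mem_cons_self)
      have hb := h1 x (hl1.subset hx)
      omega
    have hc : l1.count 1 = l1.length := by
      rw [List.count_eq_length]
      intro b hb
      exact (hall b hb).symm
    have hd := hl1.count_le 1
    rw [List.length_append, List.length_singleton] at hlen'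
    omega

theorem inc_le_of_cent (w : List ℕ) (h1 : ∀ x ∈ w, 1 ≤ x) (h : Cent w) (l : List ℕ) (hl : l.Sublist w)
    (hs : l.Pairwise (· ≤ ·)) : l.length ≤ w.count 1 := by
  classical
  have hb : ∀ m, Inc w m → m ≤ w.length := by
    rintro m ⟨l', hl', -, rfl⟩
    exact hl'.length_le
  have hex : Inc w l.length := ⟨l, hl, hs, rfl⟩
  have h0 := Nat.le_findGreatest (P := Inc w) (hb _ hex) hex
  have h2 : Inc w (Nat.findGreatest (Inc w) w.length) := Nat.findGreatest_spec (P := Inc w) (hb _ hex) hex
  have h3 : ¬ Inc w (Nat.findGreatest (Inc w) w.length + 1) := by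
    intro hcon
    have := Nat.le_findGreatest (P := Inc w) (hb _ hcon) hcon
    omega
  exact h0.trans (A7_step w h1 h _ h2 h3)

end KC98
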