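import Pool.Agent.LibKC98.Defs

/-!
# [KC98 B1] SHORT/MEDIUM. Counting words
PLAN `ncard_lists`: induction on `n`; the set for `n + 1` is the image of `S ×ˢ (set for n)` under the injective `(x, l) ↦ x :: l`
(`Set.ncard_image_of_injective`, `Set.ncard_prod`).  `flatten_inj`: induction on the two lists, `List.append_inj`.
`b_le`: `Bset n k ⊆ {l | l.length = n ∧ ∀ x ∈ l, x ∈ Set.Icc 1 k}` and `ncard_lists` (`(Set.Icc 1 k).ncard = k`), `Set.ncard_le_ncard`.
`b_zero`: a word of length `n < k` has at most `n` different letters: `Bset n k = ∅` (`w.toFinset = Finset.Icc 1 k`, `List.toFinset_card_le`).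
`bal_finite`, `perm_finite`, `lat_finite`: subsets of a set of `ncard_lists`.
-/

namespace KC98

private theorem B1_sub_icc {W : Set (List ℕ)} (n a : ℕ)
    (h : ∀ w ∈ W, w.length = n ∧ ∀ x ∈ w, 1 ≤ x ∧ x ≤ a) :
    W ⊆ {l : List ℕ | l.length = n ∧ ∀ x ∈ l, x ∈ Set.Icc 1 a} := by
  intro w hw
  obtain ⟨h1, h2⟩ := h w hw
  exact ⟨h1, fun x hx => ⟨(h2 x hx).1, (h2 x hx).2⟩⟩

theorem ncard_lists {α : Type} (S : Set α) (hS : S.Finite) (n : ℕ) :
    {l : List α | l.length = n ∧ ∀ x ∈ l, x ∈ S}.Finite ∧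
      {l : List α | l.length = n ∧ ∀ x ∈ l, x ∈ S}.ncard = S.ncard ^ n := by
  induction n with
  | zero =>
    have h : {l : List α | l.length = 0 ∧ ∀ x ∈ l, x ∈ S} = {[]} := by
      ext l
      constructor
      · rintro ⟨h1, _⟩
        exact List.length_eq_zero_iff.mp h1
      · intro h
        have h' : l = [] := h
        subst h'
        exact ⟨rfl, by simp⟩
    rw [h]
    exact ⟨Set.finite_singleton _, by simp⟩
  | succ n ih =>
    obtain ⟨ih1, ih2⟩ := ih
    have h : {l : List α | l.length = n + 1 ∧ ∀ x ∈ l, x ∈ S} =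
        (fun p : α × List α => p.1 :: p.2) ''
          (S ×ˢ {l : List α | l.length = n ∧ ∀ x ∈ l, x ∈ S}) := by
      ext l
      constructor
      · rintro ⟨h1, h2⟩
        cases l with
        | nil => simp at h1
        | cons a t =>
          refine ⟨(a, t), ⟨h2 a (by simp), ?_, ?_⟩, rfl⟩
          · simpa using h1
          · intro x hx
            exact h2 x (by simp [hx])
      · rintro ⟨⟨a, t⟩, ⟨h1, h2, h3⟩, rfl⟩
        refine ⟨?_, ?_⟩
        · simp only [List.length_cons] at h2 ⊢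
          omega
        · intro x hx
          rcases List.mem_cons.mp hx with hx | hx
          · rw [hx]; exact h1
          · exact h3 x hx
    have hinj : Function.Injective (fun p : α × List α => p.1 :: p.2) := by
      rintro ⟨a, t⟩ ⟨a', t'⟩ hh
      simp only [List.cons.injEq] at hh
      rw [Prod.mk.injEq]
      exact hh
    rw [h]
    refine ⟨(hS.prod ih1).image _, ?_⟩
    rw [Set.ncard_image_of_injective _ hinj, Set.ncard_prod, ih2, pow_succ, mul_comm]

theorem flatten_inj (B : ℕ) : ∀ (Bs Bs' : List (List ℕ)), (∀ x ∈ Bs, x.length = B) →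
    (∀ x ∈ Bs', x.length = B) → Bs.length = Bs'.length → Bs.flatten = Bs'.flatten → Bs = Bs' := by
  intro Bs
  induction Bs with
  | nil =>
    intro Bs' _ _ h3 _
    exact (List.length_eq_zero_iff.mp h3.symm).symm
  | cons a t ih =>
    intro Bs' h1 h2 h3 h4
    cases Bs' with
    | nil => simp at h3
    | cons a' t' =>
      simp only [List.flatten_cons] at h4
      have hl : a.length = a'.length := by
        rw [h1 a (by simp), h2 a' (by simp)]
      obtain ⟨e1, e2⟩ := List.append_inj h4 hl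
      rw [e1, ih t' (fun x hx => h1 x (by simp [hx])) (fun x hx => h2 x (by simp [hx]))
        (by simpa using h3) e2]

private theorem B1_bset_sub (n k : ℕ) :
    Bset n k ⊆ {l : List ℕ | l.length = n ∧ ∀ x ∈ l, x ∈ Set.Icc 1 k} :=
  B1_sub_icc n k fun _ hw => ⟨hw.1, fun x hx => (hw.2.1 x).1 hx⟩

theorem bset_finite (n k : ℕ) : (Bset n k).Finite :=
  (ncard_lists (Set.Icc 1 k) (Set.finite_Icc 1 k) n).1.subset (B1_bset_sub n k)

theorem b_le (n k : ℕ) : b n k ≤ k ^ n := by
  have h := ncard_lists (Set.Icc 1 k) (Set.finite_Icc 1 k) n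
  have h1 : (Bset n k).ncard ≤ _ := Set.ncard_le_ncard (B1_bset_sub n k) h.1
  rw [h.2] at h1
  have h2 : (Set.Icc 1 k).ncard = k := by
    rw [Set.ncard_eq_toFinset_card', Set.toFinset_Icc, Nat.card_Icc]
    omega
  rw [h2] at h1
  exact h1

theorem b_zero (n k : ℕ) (h : n < k) : b n k = 0 := by
  have h0 : Bset n k = ∅ := by
    rw [Set.eq_empty_iff_forall_notMem]
    rintro w ⟨h1, h2, _⟩
    have h3 : w.toFinset = Finset.Icc 1 k := by
      ext x
      rw [List.mem_toFinset, Finset.mem_Icc]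
      exact h2 x
    have h4 := List.toFinset_card_le w
    rw [h3, Nat.card_Icc, h1] at h4
    omega
  unfold b
  rw [h0, Set.ncard_empty]

theorem bal_finite (a L : ℕ) : (Bal a L).Finite :=
  (ncard_lists (Set.Icc 1 a) (Set.finite_Icc 1 a) (a * L)).1.subset
    (B1_sub_icc (a * L) a fun _ hw => ⟨hw.1, hw.2.1⟩)

theorem perm_finite (m a : ℕ) : (PermSet m a).Finite :=
  (ncard_lists (Set.Icc 1 (m + 1)) (Set.finite_Icc 1 (m + 1)) m).1.subset
    (B1_sub_icc m (m + 1) fun _ hw => ⟨hw.2.1, fun x hx =>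
      ⟨le_trans (by norm_num) (hw.2.2.1 x hx).1, (hw.2.2.1 x hx).2⟩⟩)

theorem lat_finite (a r : ℕ) : (Lat a r).Finite :=
  (ncard_lists (Set.Icc 1 a) (Set.finite_Icc 1 a) (a * r)).1.subset
    (B1_sub_icc (a * r) a fun _ hw => ⟨hw.1, hw.2.1⟩)

end KC98
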