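import Pool.Agent.LibKC98.B1

/-!
# [KC98 B2] MEDIUM. Many balanced words: `a^(aL) ≤ #Bal(a, L) (L+1)^(a²)`
PLAN: words `f : Fin L → Fin a`; type of `f`: `τ_f : Fin a → Fin (L+1)`, `τ_f c = #{x | f x = c}` (`≤ L`).  There are `a^L` words and `(L+1)^a` types,
so some type `τ` has `T = {f | τ_f = τ}` with `a^L ≤ |T| (L+1)^a` (`Finset.exists_le_card_fiber_of_mul_le_card_of_maps_to` or
`Finset.card_eq_sum_card_fiberwise` + `Finset.exists_max_image`).
For `F : Fin a → T` let `w(F)` be the list `(List.ofFn (fun r : Fin a => List.ofFn (fun x : Fin L => ((F r x + r : Fin a) : ℕ) + 1))).flatten`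
(addition in `Fin a` is a cyclic shift; `haveI : NeZero a := ⟨ha.ne'⟩`).  It has length `a L`, and letter `i + 1` (`i : Fin a`) occurs
`∑ r, #{x | F r x + r = i} = ∑ r, τ (i - r) = ∑ j, τ j = L` times (`Fintype.sum_equiv (Equiv.subLeft i)`; `∑ j, #{x | f x = j} = L`).
`F ↦ w(F)` is injective (`flatten_inj` with blocks of length `L`, `List.ofFn_injective`, cancel `+ r`).  So `|T|^a ≤ #Bal`
(`Set.ncard_le_ncard_of_injOn` / `Nat.card_le_card_of_injective`, `Fintype.card_fun`), and
`a^(aL) = (a^L)^a ≤ (|T| (L+1)^a)^a ≤ #Bal (L+1)^(a a)`.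
-/

namespace KC98

/-- number of occurrences of a letter, as a sum. -/
private def B2_ty (a L : ℕ) (f : Fin L → Fin a) (c : Fin a) : ℕ := ∑ x : Fin L, if f x = c then 1 else 0

private theorem B2_ty_le (a L : ℕ) (f : Fin L → Fin a) (c : Fin a) : B2_ty a L f c < L + 1 := by
  unfold B2_ty
  have h : (∑ x : Fin L, if f x = c then 1 else 0) ≤ ∑ _x : Fin L, 1 := by
    apply Finset.sum_le_sum
    intro x _
    split_ifs <;> omega
  simp only [Finset.sum_const, Finset.card_univ, Fintype.card_fin, smul_eq_mul, mul_one] at h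
  omega

private def B2_tyF (a L : ℕ) (f : Fin L → Fin a) : Fin a → Fin (L + 1) :=
  fun c => ⟨B2_ty a L f c, B2_ty_le a L f c⟩

private theorem B2_pigeon (a L : ℕ) :
    ∃ τ : Fin a → Fin (L + 1), a ^ L ≤
      (Finset.univ.filter (fun f : Fin L → Fin a => B2_tyF a L f = τ)).card * (L + 1) ^ a := by
  by_contra hcon
  push Not at hcon
  have h1 := Finset.card_eq_sum_card_fiberwise (f := B2_tyF a L)
    (s := (Finset.univ : Finset (Fin L → Fin a)))
    (t := (Finset.univ : Finset (Fin a → Fin (L + 1)))) (fun _ _ => Finset.mem_coe.2 (Finset.mem_univ _))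
  have h2 : (Finset.univ : Finset (Fin L → Fin a)).card = a ^ L := by simp
  have h3 : ∑ τ : Fin a → Fin (L + 1),
      (Finset.univ.filter (fun f : Fin L → Fin a => B2_tyF a L f = τ)).card * (L + 1) ^ a
      < ∑ _τ : Fin a → Fin (L + 1), a ^ L :=
    Finset.sum_lt_sum_of_nonempty Finset.univ_nonempty (fun τ _ => hcon τ)
  have h4 : (∑ _τ : Fin a → Fin (L + 1), a ^ L) = (L + 1) ^ a * a ^ L := by simp
  rw [← Finset.sum_mul, ← h1, h2, h4, mul_comm] at h3
  exact lt_irrefl _ h3

private theorem B2_count_ofFn : ∀ (n : ℕ) (f : Fin n → ℕ) (v : ℕ),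
    (List.ofFn f).count v = ∑ x : Fin n, if f x = v then 1 else 0 := by
  intro n
  induction n with
  | zero => intro f v; simp
  | succ n ih =>
    intro f v
    rw [List.ofFn_succ, List.count_cons, Fin.sum_univ_succ, ih, add_comm]
    congr 1
    by_cases h : f 0 = v
    · simp [h]
    · simp [h]

/-- the word of a family. -/
private def B2_wd (a L : ℕ) [NeZero a] (F : Fin a → Fin L → Fin a) : List ℕ :=
  (List.ofFn (fun r : Fin a => List.ofFn (fun x : Fin L => ((F r x + r : Fin a) : ℕ) + 1))).flatten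

private theorem B2_wd_len (a L : ℕ) [NeZero a] (F : Fin a → Fin L → Fin a) :
    (B2_wd a L F).length = a * L := by
  unfold B2_wd
  rw [List.length_flatten, List.map_ofFn, List.sum_ofFn]
  simp

private theorem B2_wd_mem (a L : ℕ) [NeZero a] (F : Fin a → Fin L → Fin a) (y : ℕ)
    (hy : y ∈ B2_wd a L F) : 1 ≤ y ∧ y ≤ a := by
  unfold B2_wd at hy
  rw [List.mem_flatten] at hy
  obtain ⟨l, hl, hyl⟩ := hy
  rw [List.mem_ofFn] at hl
  obtain ⟨r, rfl⟩ := hl
  rw [List.mem_ofFn] at hyl
  obtain ⟨x, rfl⟩ := hyl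
  have h : ((F r x + r : Fin a) : ℕ) < a := (F r x + r).isLt
  exact ⟨Nat.le_add_left _ _, h⟩

private theorem B2_sum_ty (a L : ℕ) (f : Fin L → Fin a) : ∑ j : Fin a, B2_ty a L f j = L := by
  unfold B2_ty
  rw [Finset.sum_comm]
  simp

private theorem B2_wd_count (a L : ℕ) [NeZero a] (F : Fin a → Fin L → Fin a)
    (τ : Fin a → ℕ) (hF : ∀ r c, B2_ty a L (F r) c = τ c) (i : Fin a) :
    (B2_wd a L F).count ((i : ℕ) + 1) = L := by
  unfold B2_wd
  rw [List.count_flatten, List.map_ofFn, List.sum_ofFn]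
  have h1 : ∀ r : Fin a, (List.count ((i : ℕ) + 1) ∘ fun r : Fin a =>
      List.ofFn (fun x : Fin L => ((F r x + r : Fin a) : ℕ) + 1)) r = τ (i - r) := by
    intro r
    rw [Function.comp_apply, B2_count_ofFn, ← hF r (i - r)]
    unfold B2_ty
    apply Finset.sum_congr rfl
    intro x _
    have h2 : (((F r x + r : Fin a) : ℕ) + 1 = (i : ℕ) + 1) ↔ F r x = i - r := by
      constructor
      · intro h
        have h3 : F r x + r = i := Fin.ext (by omega)
        exact eq_sub_of_add_eq h3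
      · intro h
        rw [h, sub_add_cancel]
    by_cases h : F r x = i - r
    · rw [if_pos (h2.2 h), if_pos h]
    · rw [if_neg (fun h' => h (h2.1 h')), if_neg h]
  rw [Finset.sum_congr rfl (fun r _ => h1 r)]
  rw [Fintype.sum_equiv (Equiv.subLeft i) (fun r => τ (i - r)) τ (fun r => rfl)]
  have h4 : ∀ c, τ c = B2_ty a L (F 0) c := fun c => (hF 0 c).symm
  rw [Finset.sum_congr rfl (fun c _ => h4 c)]
  exact B2_sum_ty a L (F 0)

private theorem B2_wd_inj (a L : ℕ) [NeZero a] (F G : Fin a → Fin L → Fin a)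
    (h : B2_wd a L F = B2_wd a L G) : F = G := by
  unfold B2_wd at h
  have h1 := flatten_inj L _ _ (by
      intro x hx
      rw [List.mem_ofFn] at hx
      obtain ⟨r, rfl⟩ := hx
      simp) (by
      intro x hx
      rw [List.mem_ofFn] at hx
      obtain ⟨r, rfl⟩ := hx
      simp) (by simp) h
  have h2 := List.ofFn_injective h1
  funext r x
  have h3 := congrFun h2 r
  have h4 := List.ofFn_injective h3
  have h5 := congrFun h4 x
  have h6 : F r x + r = G r x + r := Fin.ext (by
    have h7 : ((F r x + r : Fin a) : ℕ) + 1 = ((G r x + r : Fin a) : ℕ) + 1 := h5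
    omega)
  exact add_right_cancel h6

private theorem B2_card (a L : ℕ) [NeZero a] (τ : Fin a → Fin (L + 1)) :
    (Finset.univ.filter (fun f : Fin L → Fin a => B2_tyF a L f = τ)).card ^ a ≤ (Bal a L).ncard := by
  let T := {f : Fin L → Fin a // B2_tyF a L f = τ}
  let g : (Fin a → T) → List ℕ := fun F => B2_wd a L (fun r => (F r).1)
  have hg : Function.Injective g := by
    intro F G hFG
    have h := B2_wd_inj a L _ _ hFG
    funext r
    exact Subtype.ext (congrFun h r)
  have hsub : Set.range g ⊆ Bal a L := by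
    rintro _ ⟨F, rfl⟩
    refine ⟨B2_wd_len a L _, B2_wd_mem a L _, ?_⟩
    intro i h1 h2
    have h3 := B2_wd_count a L (fun r => (F r).1) (fun c => ((τ c : Fin (L + 1)) : ℕ)) (by
      intro r c
      have h4 := congrFun (F r).2 c
      exact congrArg Fin.val h4) ⟨i - 1, by omega⟩
    have h5 : i - 1 + 1 = i := by omega
    change (B2_wd a L _).count (i - 1 + 1) = L at h3
    rw [h5] at h3
    exact h3
  have h1 : (Set.range g).ncard ≤ (Bal a L).ncard := Set.ncard_le_ncard hsub (bal_finite a L)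
  have h2 : (Set.range g).ncard = Nat.card (Fin a → T) := by
    rw [← Set.image_univ, Set.ncard_image_of_injective _ hg, Set.ncard_univ]
  have h3 : Nat.card (Fin a → T) =
      (Finset.univ.filter (fun f : Fin L → Fin a => B2_tyF a L f = τ)).card ^ a := by
    rw [Nat.card_fun, Nat.card_eq_fintype_card, Nat.card_eq_fintype_card, Fintype.card_fin,
      Fintype.card_subtype]
  rw [← h3, ← h2]
  exact h1

theorem balanced_count (a L : ℕ) (ha : 0 < a) :
    a ^ (a * L) ≤ (Bal a L).ncard * (L + 1) ^ (a * a) := by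
  have hne : NeZero a := ⟨ha.ne'⟩
  obtain ⟨τ, hτ⟩ := B2_pigeon a L
  have h1 := B2_card a L τ
  calc a ^ (a * L) = (a ^ L) ^ a := by rw [← pow_mul, mul_comm L a]
    _ ≤ ((Finset.univ.filter (fun f : Fin L → Fin a => B2_tyF a L f = τ)).card *
        (L + 1) ^ a) ^ a := Nat.pow_le_pow_left hτ a
    _ = (Finset.univ.filter (fun f : Fin L → Fin a => B2_tyF a L f = τ)).card ^ a *
        (L + 1) ^ (a * a) := by rw [mul_pow, ← pow_mul]
    _ ≤ (Bal a L).ncard * (L + 1) ^ (a * a) := Nat.mul_le_mul_right _ h1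

end KC98
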