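import Pool.Agent.LibKC98.Defs

/-!
# [KC98 B3] MEDIUM. Products of balanced blocks followed by `(k-1)L` ones satisfy the suffix condition
PLAN: (1) FULL: for `Bs` with all blocks in `Bal k L`, for all `p` with `p ≤ k`, `2 ≤ p`, all weakly increasing sublists `l` of `Bs.flatten` with all
letters `≥ p`: `l.length ≤ Bs.flatten.count 1 + (k - p) * L`.  Induction on `Bs`, all `p`: `Bs = B :: Bs'`, `l = l1 ++ l2`,
`l1 <+ B`, `l2 <+ Bs'.flatten` (`List.sublist_append_iff`).  If `l1 = []` use the hypothesis for `Bs'` and `B.count 1 = L ≥ 0`.  Otherwise let `q` be the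
last letter of `l1`: the letters of `l1` lie in `[p, q]`, `q ≤ k`, each occurs at most `L` times in `B` (`List.Sublist.count_le`), so
`l1.length ≤ (q - p + 1) L` (length = sum of counts over `Finset.Icc p q`); the letters of `l2` are `≥ q` (`List.pairwise_append`), so
`l2.length ≤ Bs'.flatten.count 1 + (k - q) L`; and `B.count 1 = L`.
(2) SUFFIX: for a suffix `s` of `Bs.flatten` and `l <+ s` weakly increasing with letters `≥ 2`: `l.length ≤ s.count 1 + (k - 1) * L`.
Induction on `Bs`: `s` is a suffix of `Bs'.flatten`, or `s = s' ++ Bs'.flatten` with `s'` a suffix of `B` (`List.suffix_append_iff` or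
`List.suffix_append_or..`); split `l = l1 ++ l2` again, `l1 <+ s' <+ B`, `l1.length ≤ (q - 1) L`, `l2.length ≤ count + (k - q) L` by (1).
(3) `w = Bs.flatten ++ 1^S`: a suffix is `s' ++ 1^S` with `s'` a suffix of `Bs.flatten`, or a suffix of `1^S` (then `l = []` since its letters are `> 1`).
`l = l1 ++ l2` with `l2 <+ 1^S`, so `l2 = []`; `l.length ≤ s'.count 1 + (k - 1) L ≤ s'.count 1 + S`.
-/

namespace KC98

private theorem B3_len {k L : ℕ} {B l : List ℕ} (hB : B ∈ Bal k L) (hl : l.Sublist B) {p q : ℕ} (hp : 1 ≤ p)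
    (hq : q ≤ k) (h : ∀ x ∈ l, p ≤ x ∧ x ≤ q) : l.length ≤ (q + 1 - p) * L := by
  have h1 : ∑ a ∈ Finset.Icc p q, (l : Multiset ℕ).count a = (l : Multiset ℕ).card := by
    apply Multiset.sum_count_eq_card
    intro a ha
    exact Finset.mem_Icc.2 (h a (Multiset.mem_coe.1 ha))
  rw [Multiset.coe_card] at h1
  rw [← h1, ← Nat.card_Icc, ← smul_eq_mul, ← Finset.sum_const]
  refine Finset.sum_le_sum fun i hi => ?_
  rw [Multiset.coe_count]
  have hi' := Finset.mem_Icc.1 hi
  rw [← hB.2.2 i (hp.trans hi'.1) (hi'.2.trans hq)]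
  exact List.Sublist.count_le i hl

private theorem B3_last {l : List ℕ} (h : l ≠ []) (hl : l.Pairwise (· ≤ ·)) : ∀ x ∈ l, x ≤ l.getLast h := by
  intro x hx
  rw [← List.dropLast_append_getLast h] at hl hx
  rw [List.mem_append] at hx
  rcases hx with hx | hx
  · exact (List.pairwise_append.1 hl).2.2 x hx _ (List.mem_singleton.2 rfl)
  · exact le_of_eq (List.mem_singleton.1 hx)

private theorem B3_one {k L : ℕ} (hk : 2 ≤ k) {B : List ℕ} (hB : B ∈ Bal k L) : B.count 1 = L :=
  hB.2.2 1 le_rfl (by omega)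

/-- whole products of blocks -/
private theorem B3_full (k L : ℕ) (hk : 2 ≤ k) : ∀ (Bs : List (List ℕ)), (∀ B ∈ Bs, B ∈ Bal k L) →
    ∀ p, 2 ≤ p → p ≤ k → ∀ l : List ℕ, l.Sublist Bs.flatten → l.Pairwise (· ≤ ·) → (∀ x ∈ l, p ≤ x) →
      l.length ≤ Bs.flatten.count 1 + (k - p) * L := by
  intro Bs
  induction Bs with
  | nil =>
    intro _ p _ _ l hl _ _
    rw [List.flatten_nil, List.sublist_nil] at hl
    rw [hl]
    exact Nat.zero_le _
  | cons B Bs ih =>
    intro hB p hp hpk l hl hpw hge
    have ih' := ih (fun B' hB' => hB B' (List.mem_cons_of_mem _ hB'))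
    have hB0 := hB B List.mem_cons_self
    rw [List.flatten_cons] at hl ⊢
    obtain ⟨l1, l2, rfl, hl1, hl2⟩ := List.sublist_append_iff.1 hl
    rw [List.count_append, B3_one hk hB0]
    rw [List.pairwise_append] at hpw
    by_cases h0 : l1 = []
    · subst h0
      have h1 := ih' p hp hpk l2 hl2 hpw.2.1 (fun x hx => hge x (List.mem_append_right _ hx))
      rw [List.nil_append]
      omega
    · have hqm := List.getLast_mem h0
      have hq1 := hge _ (List.mem_append_left l2 hqm)
      have hqk := (hB0.2.1 _ (hl1.subset hqm)).2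
      have h1 := B3_len hB0 hl1 (p := p) (q := l1.getLast h0) (by omega) hqk
        (fun x hx => ⟨hge x (List.mem_append_left l2 hx), B3_last h0 hpw.1 x hx⟩)
      have h2 := ih' (l1.getLast h0) (by omega) hqk l2 hl2 hpw.2.1 (fun x hx => hpw.2.2 _ hqm x hx)
      rw [List.length_append]
      set q := l1.getLast h0 with hq
      obtain ⟨d, hd⟩ := Nat.exists_eq_add_of_le hq1
      obtain ⟨e, he⟩ := Nat.exists_eq_add_of_le hqk
      have e1 : q + 1 - p = d + 1 := by omega
      have e2 : k - q = e := by omega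
      have e3 : k - p = d + e := by omega
      rw [e1] at h1
      rw [e2] at h2
      rw [e3]
      have e4 : (d + 1) * L = d * L + L := by ring
      have e5 : (d + e) * L = d * L + e * L := by ring
      omega

/-- suffixes of products of blocks -/
private theorem B3_suffix (k L : ℕ) (hk : 2 ≤ k) : ∀ (Bs : List (List ℕ)), (∀ B ∈ Bs, B ∈ Bal k L) →
    ∀ s : List ℕ, s <:+ Bs.flatten → ∀ l : List ℕ, l.Sublist s → l.Pairwise (· ≤ ·) → (∀ x ∈ l, 1 < x) →
      l.length ≤ s.count 1 + (k - 1) * L := by
  intro Bs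
  induction Bs with
  | nil =>
    intro _ s hs l hl _ _
    rw [List.flatten_nil, List.suffix_nil] at hs
    rw [hs, List.sublist_nil] at hl
    rw [hl]
    exact Nat.zero_le _
  | cons B Bs ih =>
    intro hB s hs l hl hpw hge
    have hB' : ∀ B' ∈ Bs, B' ∈ Bal k L := fun B' hB' => hB B' (List.mem_cons_of_mem _ hB')
    have hB0 := hB B List.mem_cons_self
    rw [List.flatten_cons] at hs
    obtain ⟨t, ht⟩ := hs
    rcases List.append_eq_append_iff.1 ht with ⟨a', ha1, ha2⟩ | ⟨c', hc1, hc2⟩
    · subst ha2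
      obtain ⟨l1, l2, rfl, hl1, hl2⟩ := List.sublist_append_iff.1 hl
      have hl1B : l1.Sublist B := hl1.trans (by rw [ha1]; exact List.sublist_append_right _ _)
      rw [List.count_append]
      rw [List.pairwise_append] at hpw
      by_cases h0 : l1 = []
      · subst h0
        have h1 := B3_full k L hk Bs hB' 2 le_rfl hk l2 hl2 hpw.2.1
          (fun x hx => hge x (List.mem_append_right _ hx))
        have h2 : (k - 2) * L ≤ (k - 1) * L := Nat.mul_le_mul_right _ (by omega)
        rw [List.nil_append]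
        omega
      · have hqm := List.getLast_mem h0
        have hq1 := hge _ (List.mem_append_left l2 hqm)
        have hqk := (hB0.2.1 _ (hl1B.subset hqm)).2
        have h1 := B3_len hB0 hl1B (p := 2) (q := l1.getLast h0) (by omega) hqk
          (fun x hx => ⟨hge x (List.mem_append_left l2 hx), B3_last h0 hpw.1 x hx⟩)
        have h2 := B3_full k L hk Bs hB' (l1.getLast h0) (by omega) hqk l2 hl2 hpw.2.1
          (fun x hx => hpw.2.2 _ hqm x hx)
        rw [List.length_append]
        set q := l1.getLast h0 with hq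
        obtain ⟨d, hd⟩ := Nat.exists_eq_add_of_le (show 2 ≤ q from hq1)
        obtain ⟨e, he⟩ := Nat.exists_eq_add_of_le hqk
        have e1 : q + 1 - 2 = d + 1 := by omega
        have e2 : k - q = e := by omega
        have e3 : k - 1 = d + 1 + e := by omega
        rw [e1] at h1
        rw [e2] at h2
        rw [e3]
        have e5 : (d + 1 + e) * L = (d + 1) * L + e * L := by ring
        omega
    · exact ih hB' s ⟨c', hc2.symm⟩ l hl hpw hge

private theorem B3_ones {S : ℕ} {l : List ℕ} (hl : ∀ x ∈ l, x ∈ List.replicate S 1) (hge : ∀ x ∈ l, 1 < x) : l = [] := by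
  rw [List.eq_nil_iff_forall_not_mem]
  intro x hx
  have h1 := List.eq_of_mem_replicate (hl x hx)
  have h2 := hge x hx
  omega

theorem left_good (k L S : ℕ) (hk : 2 ≤ k) (hS : (k - 1) * L ≤ S) (Bs : List (List ℕ))
    (hB : ∀ B ∈ Bs, B ∈ Bal k L) : Good (Bs.flatten ++ List.replicate S 1) := by
  intro s hs l hl hpw hge
  obtain ⟨t, ht⟩ := hs
  rcases List.append_eq_append_iff.1 ht with ⟨a', ha1, ha2⟩ | ⟨c', hc1, hc2⟩
  · subst ha2
    obtain ⟨l1, l2, rfl, hl1, hl2⟩ := List.sublist_append_iff.1 hl
    have h2 : l2 = [] := B3_ones (fun x hx => hl2.subset hx) (fun x hx => hge x (List.mem_append_right _ hx))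
    subst h2
    rw [List.append_nil] at hpw hge ⊢
    have h1 := B3_suffix k L hk Bs hB a' ⟨t, ha1.symm⟩ l1 hl1 hpw hge
    rw [List.count_append, List.count_replicate_self]
    omega
  · have h2 : l = [] := by
      refine B3_ones (S := S) (fun x hx => ?_) hge
      rw [hc2]
      exact List.mem_append_right _ (hl.subset hx)
    rw [h2]
    exact Nat.zero_le _

end KC98
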