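import Pool.Agent.LibKC98.A6
import Pool.Agent.LibKC98.B1
import Pool.Agent.LibKC98.B3

/-!
# [KC98 B4] SHORT/MEDIUM. Lower bound for `b`, `k` small
PLAN: the map `Bs ↦ Bs.flatten ++ List.replicate S 1` from `{Bs | Bs.length = M ∧ ∀ B ∈ Bs, B ∈ Bal k L}` (ncard `(Bal k L).ncard ^ M` by `ncard_lists`,
`bal_finite`) to `Bset (M * (k * L) + S) k` is injective (`List.append_left_injective`/`List.append_cancel_right`, `flatten_inj (k * L)`).
In `Bset`: length; letters: every letter of a block is in `1..k`, and every `i` in `1..k` occurs in the first block (`M ≥ 1`, `count i = L ≥ 1`,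
`List.count_pos_iff`); `Cent` by `cent_of_good` and `left_good`.  `Set.ncard_le_ncard_of_injOn`, `bset_finite`.
-/

namespace KC98

theorem left_lower (k L S M : ℕ) (hk : 2 ≤ k) (hL : 1 ≤ L) (hM : 1 ≤ M) (hS : (k - 1) * L ≤ S) :
    (Bal k L).ncard ^ M ≤ b (M * (k * L) + S) k := by
  rw [← (ncard_lists (Bal k L) (bal_finite k L) M).2]
  unfold b
  have hlen : ∀ Bs : List (List ℕ), (∀ B ∈ Bs, B ∈ Bal k L) →
      Bs.flatten.length = Bs.length * (k * L) := by
    intro Bs h
    induction Bs with
    | nil => simp
    | cons B Bs ih =>
      rw [List.flatten_cons, List.length_append,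
        ih (fun x hx => h x (List.mem_cons_of_mem _ hx)), (h B List.mem_cons_self).1,
        List.length_cons]
      ring
  refine Set.ncard_le_ncard_of_injOn (fun Bs => Bs.flatten ++ List.replicate S 1) ?_ ?_
    (bset_finite _ _)
  · rintro Bs ⟨hl, hB⟩
    refine ⟨?_, ?_, ?_⟩
    · rw [List.length_append, hlen Bs hB, hl, List.length_replicate]
    · intro i
      constructor
      · intro hi
        rcases List.mem_append.1 hi with h | h
        · obtain ⟨B, hB1, hB2⟩ := List.mem_flatten.1 h
          exact (hB B hB1).2.1 i hB2
        · have := List.eq_of_mem_replicate h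
          omega
      · intro hi
        cases Bs with
        | nil =>
          have h0 : (0 : ℕ) = M := hl
          omega
        | cons B Bs =>
          apply List.mem_append_left
          rw [List.mem_flatten]
          refine ⟨B, List.mem_cons_self, ?_⟩
          have := (hB B List.mem_cons_self).2.2 i hi.1 hi.2
          exact List.count_pos_iff.1 (by omega)
    · apply cent_of_good
      · intro x hx
        rcases List.mem_append.1 hx with h | h
        · obtain ⟨B, hB1, hB2⟩ := List.mem_flatten.1 h
          exact ((hB B hB1).2.1 x hB2).1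
        · have := List.eq_of_mem_replicate h
          omega
      · exact left_good k L S hk hS Bs hB
  · rintro Bs ⟨hl, hB⟩ Bs' ⟨hl', hB'⟩ h
    have h2 : Bs.flatten = Bs'.flatten := List.append_cancel_right h
    exact flatten_inj (k * L) Bs Bs' (fun x hx => (hB x hx).1) (fun x hx => (hB' x hx).1)
      (hl.trans hl'.symm) h2

end KC98
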