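import Mathlib

/-!
# [KC98 B5] MEDIUM. Numerics for the left end
PLAN: `L = 16 k^4`, `B = k L = 16 k^5`, `M = (n - (k-1) L) / B`, `S = n - M B`.  Then `(k-1) L ≤ S < (k-1) L + B ≤ 2 B = 32 k^5`, `M ≥ 1`
(`n ≥ 128 k^8 ≥ 2 B`), `M ≤ n / B`.
Let `X ≥ 1` (if `X = 0` the hypothesis fails).  With natural logarithms: `log X ≥ B log k - k² log (L+1)`; to show
`n log (k-1) + n log (k+1) ≤ 2 M log X`.  `log (k-1) + log (k+1) = log (k² - 1) ≤ 2 log k - 1/k²` (`Real.log_le_sub_one_of_pos` for `1 - 1/k²`).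
So it suffices: `2 n log k - n/k² ≤ 2 M B log k - 2 M k² log (L+1)`, i.e. `2 S log k + 2 M k² log (L+1) ≤ n/k²`.
(a) `2 S log k ≤ 64 k^5 log k ≤ 64 k^6 ≤ n/(2 k²)` (as `log k ≤ k`, `n ≥ 128 k^8`).
(b) `2 M k² log (L+1) ≤ 2 (n/(16 k^5)) k² (4 k) = n/(2 k²)`, using `log (16 k^4 + 1) ≤ 4 k` for `k ≥ 2`
(e.g. `16 k^4 + 1 ≤ exp (4k)`: from `2 k ≤ exp k`... `exp k ≥ 1 + k + k²/2`, `exp (4k) = (exp k)^4`, `(1 + k + k²/2)^4 ≥ (2k)^4 + 1`;
note `1 + k + k²/2 ≥ 2 k + 1/2`).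
Then exponentiate (`Real.exp_log`, `Real.log_pow`, `Nat.cast` comparisons; `Real.log_le_log_iff`).
-/

namespace KC98

theorem left_num (n k : ℕ) (hk : 2 ≤ k) (hn : 128 * k ^ 8 ≤ n) :
    ∃ L M S : ℕ, 1 ≤ L ∧ 1 ≤ M ∧ (k - 1) * L ≤ S ∧ n = M * (k * L) + S ∧
      ∀ X : ℕ, k ^ (k * L) ≤ X * (L + 1) ^ (k * k) → (k - 1) ^ n * (k + 1) ^ n ≤ (X ^ M) ^ 2 := by
  have hk1 : 1 ≤ k := by omega
  have h5 : k ^ 5 ≤ k ^ 8 := Nat.pow_le_pow_right hk1 (by norm_num)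
  have hkp : 0 < k ^ 5 := pow_pos (by omega) 5
  have hB : (k - 1) * (16 * k ^ 4) + 16 * k ^ 4 = 16 * k ^ 5 := by
    obtain ⟨m, rfl⟩ : ∃ m, k = m + 1 := ⟨k - 1, by omega⟩
    simp only [Nat.add_sub_cancel]
    ring
  have hkL : k * (16 * k ^ 4) = 16 * k ^ 5 := by ring
  have hle : (k - 1) * (16 * k ^ 4) ≤ 16 * k ^ 5 := by omega
  obtain ⟨M, hM⟩ : ∃ M, M = (n - (k - 1) * (16 * k ^ 4)) / (16 * k ^ 5) := ⟨_, rfl⟩
  have hmod := Nat.div_add_mod (n - (k - 1) * (16 * k ^ 4)) (16 * k ^ 5)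
  have hmlt := Nat.mod_lt (n - (k - 1) * (16 * k ^ 4)) (by omega : 16 * k ^ 5 > 0)
  rw [← hM] at hmod
  have hM1 : 1 ≤ M := by
    rw [hM]
    exact (Nat.one_le_div_iff (by omega)).2 (by omega)
  have hMB : 16 * k ^ 5 * M ≤ n - (k - 1) * (16 * k ^ 4) := by omega
  refine ⟨16 * k ^ 4, M, n - M * (k * (16 * k ^ 4)), ?_, hM1, ?_, ?_, ?_⟩
  · have : 0 < k ^ 4 := pow_pos (by omega) 4
    omega
  · rw [hkL, Nat.mul_comm M]
    omega
  · rw [hkL, Nat.mul_comm M]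
    omega
  · intro X hX
    have hXpos : 1 ≤ X := by
      by_contra h0
      have hX0 : X = 0 := by omega
      rw [hX0, Nat.zero_mul] at hX
      have : 0 < k ^ (k * (16 * k ^ 4)) := pow_pos (by omega) _
      omega
    obtain ⟨S, hS⟩ : ∃ S, S = n - 16 * k ^ 5 * M := ⟨_, rfl⟩
    have hSle : S ≤ 32 * k ^ 5 := by omega
    have hnS : n = M * (16 * k ^ 5) + S := by
      rw [Nat.mul_comm M]
      omega
    -- real numbers
    have hkr : (2 : ℝ) ≤ (k : ℝ) := by exact_mod_cast hk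
    have hXr : (1 : ℝ) ≤ (X : ℝ) := by exact_mod_cast hXpos
    have hk0 : (0 : ℝ) < (k : ℝ) := by linarith
    have hX0 : (0 : ℝ) < (X : ℝ) := by linarith
    have hSr : (S : ℝ) ≤ 32 * (k : ℝ) ^ 5 := by exact_mod_cast hSle
    have hS0 : (0 : ℝ) ≤ (S : ℝ) := Nat.cast_nonneg S
    have hM0 : (0 : ℝ) ≤ (M : ℝ) := Nat.cast_nonneg M
    have hnr : (n : ℝ) = (M : ℝ) * (16 * (k : ℝ) ^ 5) + (S : ℝ) := by
      have : ((n : ℕ) : ℝ) = ((M * (16 * k ^ 5) + S : ℕ) : ℝ) := by rw [← hnS]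
      rw [this]
      push_cast
      ring
    have hn8 : 128 * (k : ℝ) ^ 8 ≤ (n : ℝ) := by exact_mod_cast hn
    have hlogk : Real.log k ≤ k := by
      have := Real.log_le_sub_one_of_pos hk0
      linarith
    have hlogk0 : 0 ≤ Real.log k := Real.log_nonneg (by linarith)
    have hL0 : (0 : ℝ) < 16 * (k : ℝ) ^ 4 + 1 := by positivity
    have hlogL : Real.log (16 * (k : ℝ) ^ 4 + 1) ≤ 4 * k := by
      rw [Real.log_le_iff_le_exp hL0]
      have he1 : 2 * (k : ℝ) + 1 / 2 ≤ Real.exp k := by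
        have := Real.quadratic_le_exp_of_nonneg hk0.le
        nlinarith [sq_nonneg ((k : ℝ) - 1)]
      have he2 : (2 * (k : ℝ) + 1 / 2) ^ 4 ≤ (Real.exp k) ^ 4 :=
        pow_le_pow_left₀ (by linarith) he1 4
      have he3 : (Real.exp (k : ℝ)) ^ 4 = Real.exp (4 * (k : ℝ)) := by
        rw [← Real.exp_nat_mul]
        norm_num
      have he4 : 16 * (k : ℝ) ^ 4 + 1 ≤ (2 * (k : ℝ) + 1 / 2) ^ 4 := by
        have h3 : 0 ≤ (k : ℝ) ^ 3 := by positivity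
        have h2 : 0 ≤ (k : ℝ) ^ 2 := by positivity
        have e : (2 * (k : ℝ) + 1 / 2) ^ 4 = 16 * (k : ℝ) ^ 4 + 16 * (k : ℝ) ^ 3 + 6 * (k : ℝ) ^ 2 + k + 1 / 16 := by
          ring
        rw [e]
        linarith
      linarith
    have hXlog : (16 * (k : ℝ) ^ 5) * Real.log k ≤ Real.log X + (k : ℝ) ^ 2 * Real.log (16 * (k : ℝ) ^ 4 + 1) := by
      have hc : (k : ℝ) ^ (k * (16 * k ^ 4)) ≤ (X : ℝ) * (16 * (k : ℝ) ^ 4 + 1) ^ (k * k) := by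
        exact_mod_cast hX
      have hl := Real.log_le_log (by positivity) hc
      rw [Real.log_pow, Real.log_mul hX0.ne' (by positivity), Real.log_pow] at hl
      have e1 : ((k * (16 * k ^ 4) : ℕ) : ℝ) = 16 * (k : ℝ) ^ 5 := by push_cast; ring
      have e2 : ((k * k : ℕ) : ℝ) = (k : ℝ) ^ 2 := by push_cast; ring
      rw [e1, e2] at hl
      exact hl
    have hkey : (n : ℝ) * (2 * Real.log k - 1 / (k : ℝ) ^ 2) ≤ 2 * (M : ℝ) * Real.log X := by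
      have hMX : (M : ℝ) * ((16 * (k : ℝ) ^ 5) * Real.log k) ≤
          (M : ℝ) * (Real.log X + (k : ℝ) ^ 2 * Real.log (16 * (k : ℝ) ^ 4 + 1)) :=
        mul_le_mul_of_nonneg_left hXlog hM0
      have ha : 2 * (S : ℝ) * Real.log k ≤ (n : ℝ) / (2 * (k : ℝ) ^ 2) := by
        rw [le_div_iff₀ (by positivity)]
        have h1 : (S : ℝ) * Real.log k ≤ 32 * (k : ℝ) ^ 5 * k :=
          mul_le_mul hSr hlogk hlogk0 (by positivity)
        have h2 : (S : ℝ) * Real.log k * (k : ℝ) ^ 2 ≤ 32 * (k : ℝ) ^ 5 * k * (k : ℝ) ^ 2 :=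
          mul_le_mul_of_nonneg_right h1 (by positivity)
        have e3 : 32 * (k : ℝ) ^ 5 * k * (k : ℝ) ^ 2 = 32 * (k : ℝ) ^ 8 := by ring
        calc 2 * (S : ℝ) * Real.log k * (2 * (k : ℝ) ^ 2) = 4 * ((S : ℝ) * Real.log k * (k : ℝ) ^ 2) := by ring
          _ ≤ 4 * (32 * (k : ℝ) ^ 8) := by rw [← e3]; linarith
          _ ≤ (n : ℝ) := by linarith
      have hb : 2 * (M : ℝ) * ((k : ℝ) ^ 2 * Real.log (16 * (k : ℝ) ^ 4 + 1)) ≤ (n : ℝ) / (2 * (k : ℝ) ^ 2) := by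
        rw [le_div_iff₀ (by positivity)]
        have h1 : (k : ℝ) ^ 2 * Real.log (16 * (k : ℝ) ^ 4 + 1) ≤ (k : ℝ) ^ 2 * (4 * k) :=
          mul_le_mul_of_nonneg_left hlogL (by positivity)
        have h2 : 2 * (M : ℝ) * ((k : ℝ) ^ 2 * Real.log (16 * (k : ℝ) ^ 4 + 1)) ≤ 2 * (M : ℝ) * ((k : ℝ) ^ 2 * (4 * k)) :=
          mul_le_mul_of_nonneg_left h1 (by positivity)
        calc 2 * (M : ℝ) * ((k : ℝ) ^ 2 * Real.log (16 * (k : ℝ) ^ 4 + 1)) * (2 * (k : ℝ) ^ 2)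
            ≤ 2 * (M : ℝ) * ((k : ℝ) ^ 2 * (4 * k)) * (2 * (k : ℝ) ^ 2) :=
              mul_le_mul_of_nonneg_right h2 (by positivity)
          _ = (M : ℝ) * (16 * (k : ℝ) ^ 5) := by ring
          _ ≤ (n : ℝ) := by rw [hnr]; linarith
      have hsum : (n : ℝ) / (2 * (k : ℝ) ^ 2) + (n : ℝ) / (2 * (k : ℝ) ^ 2) = (n : ℝ) * (1 / (k : ℝ) ^ 2) := by
        field_simp
        ring
      have hn2 : (n : ℝ) * (2 * Real.log k) = 2 * ((M : ℝ) * ((16 * (k : ℝ) ^ 5) * Real.log k)) + 2 * (S : ℝ) * Real.log k := by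
        rw [hnr]
        ring
      have hexp : (n : ℝ) * (2 * Real.log k - 1 / (k : ℝ) ^ 2) = (n : ℝ) * (2 * Real.log k) - (n : ℝ) * (1 / (k : ℝ) ^ 2) := by
        ring
      rw [hexp, hn2, ← hsum]
      have hd : (M : ℝ) * (Real.log X + (k : ℝ) ^ 2 * Real.log (16 * (k : ℝ) ^ 4 + 1)) =
          (M : ℝ) * Real.log X + (M : ℝ) * ((k : ℝ) ^ 2 * Real.log (16 * (k : ℝ) ^ 4 + 1)) := by ring
      rw [hd] at hMX
      linarith
    have hkm : (0 : ℝ) < (k : ℝ) - 1 := by linarith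
    have hkp1 : (0 : ℝ) < (k : ℝ) + 1 := by linarith
    have hlog2 : Real.log ((k : ℝ) - 1) + Real.log ((k : ℝ) + 1) ≤ 2 * Real.log k - 1 / (k : ℝ) ^ 2 := by
      rw [← Real.log_mul hkm.ne' hkp1.ne']
      have hfac : ((k : ℝ) - 1) * ((k : ℝ) + 1) = (k : ℝ) ^ 2 * (1 - 1 / (k : ℝ) ^ 2) := by
        field_simp
        ring
      have hpos : (0 : ℝ) < 1 - 1 / (k : ℝ) ^ 2 := by
        have h1 : 1 / (k : ℝ) ^ 2 < 1 := by
          rw [div_lt_one (by positivity)]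
          nlinarith
        linarith
      rw [hfac, Real.log_mul (by positivity) hpos.ne', Real.log_pow]
      have := Real.log_le_sub_one_of_pos hpos
      push_cast
      linarith
    have hfinal : ((k : ℝ) - 1) ^ n * ((k : ℝ) + 1) ^ n ≤ ((X : ℝ) ^ M) ^ 2 := by
      rw [← Real.log_le_log_iff (by positivity) (by positivity),
        Real.log_mul (by positivity) (by positivity), Real.log_pow, Real.log_pow, Real.log_pow, Real.log_pow]
      have h1 : (n : ℝ) * Real.log ((k : ℝ) - 1) + (n : ℝ) * Real.log ((k : ℝ) + 1) ≤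
          (n : ℝ) * (2 * Real.log k - 1 / (k : ℝ) ^ 2) := by
        rw [← mul_add]
        exact mul_le_mul_of_nonneg_left hlog2 (Nat.cast_nonneg n)
      push_cast
      linarith
    have hcast : ((k - 1 : ℕ) : ℝ) = (k : ℝ) - 1 := by
      rw [Nat.cast_sub hk1]
      simp
    have : (((k - 1) ^ n * (k + 1) ^ n : ℕ) : ℝ) ≤ (((X ^ M) ^ 2 : ℕ) : ℝ) := by
      push_cast [hcast]
      exact hfinal
    exact_mod_cast this

end KC98
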