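import Pool.Agent.LibKC98.Defs

/-!
# [KC98 C1] SHORT/MEDIUM. Colouring the positions of a word without long weakly increasing subword
PLAN: let `g i` = the largest length of a weakly increasing list `l` with `(w.get i :: l)`... easiest: define recursively the list of colours
`col : List ℕ → List ℕ`, `col [] = []`, `col (x :: w) = (sup over the pairs (y, c) of List.zip w (col w) with x ≤ y of (c + 1), or 0) :: col w`.
Facts by induction: every colour `c` at position `i` has a weakly increasing sublist of `w.drop i` starting with `w[i]` of length `c + 1`
(so `c < a`), and if `i < j` and `w[i] ≤ w[j]` then colour `i` ≥ colour `j` + 1.  (Any other proof, e.g. with `Finset.sup` over `Fin w.length`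
or Mathlib's order height, is fine.)
-/

namespace KC98

private theorem C1_aux (w : List ℕ) :
    ∃ col : ℕ → ℕ, (∀ (i : ℕ) (hi : i < w.length), ∃ l : List ℕ, l.Sublist w ∧ l.Pairwise (· ≤ ·) ∧
      l.length = col i + 1 ∧ ∀ y ∈ l, w[i] ≤ y) ∧
      ∀ (i j : ℕ) (hij : i < j) (hj : j < w.length), w[i] ≤ w[j] → col j < col i := by
  induction w with
  | nil =>
    refine ⟨fun _ => 0, ?_, ?_⟩
    · intro i hi
      simp at hi
    · intro i j _ hj
      simp at hj
  | cons x w ih =>
    obtain ⟨col, h1, h2⟩ := ih
    let S : Finset ℕ := (Finset.range w.length).filter fun j => x ≤ w.getD j 0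
    let c0 : ℕ := S.sup fun j => col j + 1
    refine ⟨fun i => match i with
      | 0 => c0
      | i + 1 => col i, ?_, ?_⟩
    · intro i hi
      cases i with
      | zero =>
        by_cases hS : S.Nonempty
        · obtain ⟨j, hjS, hj⟩ := Finset.exists_mem_eq_sup S hS (fun j => col j + 1)
          have hjS' := Finset.mem_filter.1 hjS
          have hjl : j < w.length := Finset.mem_range.1 hjS'.1
          obtain ⟨l, hl1, hl2, hl3, hl4⟩ := h1 j hjl
          have hxj : x ≤ w[j] := by
            have h := hjS'.2
            rw [List.getD_eq_getElem _ _ hjl] at h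
            exact h
          refine ⟨x :: l, hl1.cons_cons x, ?_, ?_, ?_⟩
          · exact List.Pairwise.cons (fun y hy => le_trans hxj (hl4 y hy)) hl2
          · have e : c0 = col j + 1 := hj
            simp only [List.length_cons, hl3, e]
          · intro y hy
            rcases List.mem_cons.1 hy with rfl | hy
            · exact le_refl _
            · exact le_trans hxj (hl4 y hy)
        · rw [Finset.not_nonempty_iff_eq_empty] at hS
          have e : c0 = 0 := by
            show S.sup _ = 0
            rw [hS]
            rfl
          refine ⟨[x], ?_, ?_, ?_, ?_⟩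
          · exact (List.nil_sublist w).cons_cons x
          · exact List.pairwise_singleton _ _
          · simp only [List.length_cons, List.length_nil, e]
          · intro y hy
            rw [List.mem_singleton] at hy
            subst hy
            exact le_refl _
      | succ i =>
        have hi' : i < w.length := by simpa using hi
        obtain ⟨l, hl1, hl2, hl3, hl4⟩ := h1 i hi'
        exact ⟨l, hl1.cons x, hl2, hl3, fun y hy => by simpa using hl4 y hy⟩
    · intro i j hij hj hle
      cases j with
      | zero => exact absurd hij (Nat.not_lt_zero _)
      | succ j =>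
        have hj' : j < w.length := by simpa using hj
        cases i with
        | zero =>
          have hle' : x ≤ w[j] := by simpa using hle
          have hmem : j ∈ S := by
            refine Finset.mem_filter.2 ⟨Finset.mem_range.2 hj', ?_⟩
            rw [List.getD_eq_getElem _ _ hj']
            exact hle'
          have : col j + 1 ≤ c0 := Finset.le_sup (f := fun j => col j + 1) hmem
          exact this
        | succ i =>
          have hle' : w[i] ≤ w[j] := by simpa using hle
          exact h2 i j (Nat.lt_of_succ_lt_succ hij) hj' hle'

theorem exists_col (a : ℕ) (w : List ℕ)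
    (h : ∀ l : List ℕ, l.Sublist w → l.Pairwise (· ≤ ·) → l.length ≤ a) :
    ∃ c : Fin w.length → Fin a, ∀ i j : Fin w.length, i < j → c i = c j → w.get j < w.get i := by
  obtain ⟨col, h1, h2⟩ := C1_aux w
  have hlt : ∀ i : Fin w.length, col i < a := by
    intro i
    obtain ⟨l, hl1, hl2, hl3, _⟩ := h1 i i.2
    have := h l hl1 hl2
    omega
  refine ⟨fun i => ⟨col i, hlt i⟩, ?_⟩
  intro i j hij hc
  by_contra hcon
  have hle : w[(i : ℕ)] ≤ w[(j : ℕ)] := not_lt.1 hcon
  have h3 := h2 i j hij j.2 hle
  have h4 : col i = col j := congrArg Fin.val hc
  omega

end KC98
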