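import Mathlib

/-!
# [KC98 C2a] SHORT/MEDIUM. Uniqueness and a count
PLAN `anti_unique`: fix a colour `γ`; on the subtype `{i // c i = γ}` (a finite linear order) `w` and `w'` are strictly antitone with the same
range, hence equal (`StrictMono.range_inj` for the order dual; or by strong induction: the smallest position where they differ, the larger of the two
values must be taken by the other function at an earlier position, where they agree, contradiction).
PLAN `count_V`: choose for `V` a function `g : Fin k → Fin a` with `(v, g v) ∈ V`; `V \ {(v, g v)}` has `j` elements, choose a surjection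
`e : Fin j → ` it (`Finset.equivFin`), `V ↦ (g, e)` into `(Fin k → Fin a) × (Fin j → Fin k × Fin a)` is injective (`V` = image of `g`-graph ∪ range `e`).
`Nat.card_le_card_of_injective`, `Nat.card_fun`... `= a^k (k a)^j`.
-/

namespace KC98

private theorem C2a_aux {n a : ℕ} {w w' : Fin n → ℕ} {c : Fin n → Fin a}
    (h : ∀ i j, i < j → c i = c j → w j < w i) (h' : ∀ i j, i < j → c i = c j → w' j < w' i)
    (hV : ∀ v γ, (∃ i, w i = v ∧ c i = γ) → (∃ i, w' i = v ∧ c i = γ)) (i : Fin n)
    (hi : ∀ j, j < i → w j = w' j) : ¬ w' i < w i := by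
  intro hlt
  obtain ⟨j, hj1, hj2⟩ := hV (w i) (c i) ⟨i, rfl, rfl⟩
  rcases lt_trichotomy j i with hji | hji | hji
  · have h1 := h j i hji hj2
    rw [hi j hji, hj1] at h1
    exact lt_irrefl _ h1
  · subst hji
    omega
  · have h1 := h' i j hji hj2.symm
    omega

theorem anti_unique (n a : ℕ) (w w' : Fin n → ℕ) (c : Fin n → Fin a)
    (h : ∀ i j, i < j → c i = c j → w j < w i) (h' : ∀ i j, i < j → c i = c j → w' j < w' i)
    (hV : ∀ v γ, (∃ i, w i = v ∧ c i = γ) ↔ (∃ i, w' i = v ∧ c i = γ)) : w = w' := by
  have key : ∀ m : ℕ, ∀ i : Fin n, i.val < m → w i = w' i := by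
    intro m
    induction m with
    | zero => intro i hi; omega
    | succ m ih =>
      intro i hi
      have hlow : ∀ j, j < i → w j = w' j := fun j hj => ih j (by have : j.val < i.val := hj; omega)
      have h1 := C2a_aux h h' (fun v γ => (hV v γ).1) i hlow
      have h2 := C2a_aux h' h (fun v γ => (hV v γ).2) i (fun j hj => (hlow j hj).symm)
      omega
  funext i
  exact key n i i.isLt

theorem count_V (k j a : ℕ) :
    Nat.card {V : Finset (Fin k × Fin a) // V.card = k + j ∧ ∀ v : Fin k, ∃ γ : Fin a, (v, γ) ∈ V} ≤
      a ^ k * (k * a) ^ j := by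
  classical
  have hg : ∀ V : {V : Finset (Fin k × Fin a) // V.card = k + j ∧ ∀ v : Fin k, ∃ γ : Fin a, (v, γ) ∈ V},
      ∃ (g : Fin k → Fin a) (e : Fin j → Fin k × Fin a),
        V.1 = (Finset.univ.image fun v => (v, g v)) ∪ Finset.univ.image e := by
    intro V
    choose g hg using V.2.2
    have hsub : (Finset.univ.image fun v => (v, g v)) ⊆ V.1 := by
      intro p hp
      rw [Finset.mem_image] at hp
      obtain ⟨v, -, rfl⟩ := hp
      exact hg v
    have hcard : (Finset.univ.image fun v : Fin k => (v, g v)).card = k := by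
      rw [Finset.card_image_of_injective _ (fun v v' hv => (Prod.mk.inj hv).1), Finset.card_univ,
        Fintype.card_fin]
    have hc2 : (V.1 \ (Finset.univ.image fun v : Fin k => (v, g v))).card = j := by
      rw [Finset.card_sdiff_of_subset hsub, hcard, V.2.1]
      omega
    let e := (Finset.equivFinOfCardEq hc2).symm
    refine ⟨g, fun i => (e i).1, ?_⟩
    have he : (Finset.univ.image fun i => ((e i).1 : Fin k × Fin a)) =
        V.1 \ (Finset.univ.image fun v : Fin k => (v, g v)) := by
      ext p
      rw [Finset.mem_image]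
      constructor
      · rintro ⟨i, -, rfl⟩
        exact (e i).2
      · intro hp
        exact ⟨e.symm ⟨p, hp⟩, Finset.mem_univ _, by rw [Equiv.apply_symm_apply]⟩
    rw [he, Finset.union_sdiff_of_subset hsub]
  choose g e hge using hg
  have hinj : Function.Injective fun V => (g V, e V) := by
    intro V V' h
    have h1 := (Prod.mk.inj h).1
    have h2 := (Prod.mk.inj h).2
    apply Subtype.ext
    rw [hge V, hge V', h1, h2]
  refine le_trans (Nat.card_le_card_of_injective _ hinj) ?_
  rw [Nat.card_prod, Nat.card_fun, Nat.card_fun, Nat.card_prod]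
  simp only [Nat.card_eq_fintype_card, Fintype.card_fin]
  exact le_rfl

end KC98
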