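import Pool.Agent.LibKC98.A7
import Pool.Agent.LibKC98.B1
import Pool.Agent.LibKC98.C1
import Pool.Agent.LibKC98.C2a

/-!
# [KC98 C2b] MEDIUM. Upper bound for `b n (n - j)`
PLAN: `k = n - j ≥ 1`, `a = j + 1`.  For `w ∈ Bset n k`: `w.count 1 ≤ a`, because each of the letters `2..k` occurs (`k - 1` further positions:
`w.length = ∑ over Icc 1 k of count`), so weakly increasing sublists have length `≤ a` (`inc_le_of_cent`); `exists_col` gives
`c_w : Fin n → Fin a` (transport along `w.length = n`).  `V_w = {(v, γ) : Fin k × Fin a | ∃ i, w_i = v + 1 ∧ c_w i = γ}` has exactly `n = k + j`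
elements (`i ↦ (w_i, c_w i)` is injective: same colour and `i < i'` gives `w_i' < w_i`), and every `v` occurs.  `w ↦ (c_w, V_w)` is injective
by `anti_unique`.  So `b n k ≤ a^n * (a^k (k a)^j) = a^(n + k + j) k^j ≤ n^j a^(2n)` (`count_V`, `Nat.card_prod`).
-/

namespace KC98

private lemma C2b_count (n k : ℕ) (hk : 1 ≤ k) (w : List ℕ) (h : w ∈ Bset n k) : w.count 1 + (k - 1) ≤ n := by
  obtain ⟨h1, h2, -⟩ := h
  have e1 : w.length = w.countP (fun x => x == 1) + w.countP (fun x => decide ¬ ((x == 1) = true)) :=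
    List.length_eq_countP_add_countP (fun x => x == 1)
  have e2 : k - 1 ≤ w.countP (fun x => decide ¬ ((x == 1) = true)) := by
    rw [List.countP_eq_length_filter]
    have : Finset.Icc 2 k ⊆ (w.filter (fun x => decide ¬ ((x == 1) = true))).toFinset := by
      intro x hx
      rw [Finset.mem_Icc] at hx
      rw [List.mem_toFinset, List.mem_filter]
      refine ⟨(h2 x).2 ⟨by omega, hx.2⟩, ?_⟩
      simp
      omega
    have h3 := Finset.card_le_card this
    have h4 := List.toFinset_card_le (w.filter (fun x => decide ¬ ((x == 1) = true)))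
    rw [Nat.card_Icc] at h3
    omega
  have e3 : w.count 1 = w.countP (fun x => x == 1) := rfl
  omega

private lemma C2b_col (n k j : ℕ) (hk : 1 ≤ k) (hn : n = k + j) (w : List ℕ) (h : w ∈ Bset n k) :
    ∃ c : Fin n → Fin (j + 1), ∀ i i' : Fin n, i < i' → c i = c i' →
      w.getD i'.val 0 < w.getD i.val 0 := by
  have hc := C2b_count n k hk w h
  have h1 : ∀ l : List ℕ, l.Sublist w → l.Pairwise (· ≤ ·) → l.length ≤ j + 1 := by
    intro l hl hs
    have := inc_le_of_cent w (fun x hx => ((h.2.1 x).1 hx).1) h.2.2 l hl hs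
    omega
  obtain ⟨c, hc'⟩ := exists_col (j + 1) w h1
  refine ⟨fun i => c (Fin.cast h.1.symm i), fun i i' hi he => ?_⟩
  have := hc' (Fin.cast h.1.symm i) (Fin.cast h.1.symm i') (by simpa using hi) he
  have l1 : i.val < w.length := by have := i.2; have := h.1; omega
  have l2 : i'.val < w.length := by have := i'.2; have := h.1; omega
  rw [List.getD_eq_getElem _ _ l1, List.getD_eq_getElem _ _ l2]
  simpa using this

private def C2b_V (n k a : ℕ) (W : Fin n → ℕ) (c : Fin n → Fin a) : Finset (Fin k × Fin a) := by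
  classical
  exact Finset.univ.filter (fun p => ∃ i : Fin n, W i = p.1.val + 1 ∧ c i = p.2)

private lemma C2b_mem (n k a : ℕ) (W : Fin n → ℕ) (c : Fin n → Fin a) (p : Fin k × Fin a) :
    p ∈ C2b_V n k a W c ↔ ∃ i : Fin n, W i = p.1.val + 1 ∧ c i = p.2 := by
  classical
  unfold C2b_V
  rw [Finset.mem_filter]
  simp

private lemma C2b_card (n k a : ℕ) (W : Fin n → ℕ) (c : Fin n → Fin a) (hW : ∀ i, 1 ≤ W i ∧ W i ≤ k)
    (h : ∀ i i', i < i' → c i = c i' → W i' < W i) : (C2b_V n k a W c).card = n := by
  classical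
  let f : Fin n → Fin k × Fin a := fun i => (⟨W i - 1, by have := hW i; omega⟩, c i)
  have hf : Function.Injective f := by
    intro i i' he
    have e1 : W i - 1 = W i' - 1 := by
      have := (Prod.mk.inj he).1
      simpa using congrArg Fin.val this
    have e2 : c i = c i' := (Prod.mk.inj he).2
    have e3 : W i = W i' := by have := hW i; have := hW i'; omega
    rcases lt_trichotomy i i' with h1 | h1 | h1
    · have := h i i' h1 e2; omega
    · exact h1
    · have := h i' i h1 e2.symm; omega
  have hV : C2b_V n k a W c = Finset.univ.image f := by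
    ext p
    rw [C2b_mem, Finset.mem_image]
    constructor
    · rintro ⟨i, h1, h2⟩
      refine ⟨i, Finset.mem_univ _, ?_⟩
      apply Prod.ext
      · apply Fin.ext
        show W i - 1 = p.1.val
        omega
      · exact h2
    · rintro ⟨i, -, h1⟩
      refine ⟨i, ?_, ?_⟩
      · rw [← h1]
        show W i = W i - 1 + 1
        have := hW i; omega
      · rw [← h1]
  rw [hV, Finset.card_image_of_injective _ hf]
  simp

theorem right_upper (n j : ℕ) (hj : j < n) : b n (n - j) ≤ n ^ j * (j + 1) ^ (2 * n) := by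
  classical
  obtain ⟨k, hk⟩ : ∃ k, k = n - j := ⟨_, rfl⟩
  rw [← hk]
  have hk1 : 1 ≤ k := by omega
  have hn : n = k + j := by omega
  have hcol := fun w : Bset n k => C2b_col n k j hk1 hn w.1 w.2
  choose c hc using hcol
  have hW : ∀ (w : Bset n k) (i : Fin n), 1 ≤ w.1.getD i.val 0 ∧ w.1.getD i.val 0 ≤ k := by
    intro w i
    have l1 : i.val < w.1.length := by have := i.2; have := w.2.1; omega
    rw [List.getD_eq_getElem _ _ l1]
    exact (w.2.2.1 _).1 (List.getElem_mem l1)
  let F : Bset n k → (Fin n → Fin (j + 1)) ×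
      {V : Finset (Fin k × Fin (j + 1)) // V.card = k + j ∧ ∀ v : Fin k, ∃ γ : Fin (j + 1), (v, γ) ∈ V} :=
    fun w => (c w, ⟨C2b_V n k (j + 1) (fun i => w.1.getD i.val 0) (c w), by
      rw [C2b_card n k (j + 1) _ _ (hW w) (hc w)]; exact hn, by
      intro v
      have hv : v.val + 1 ∈ w.1 := (w.2.2.1 _).2 ⟨by omega, by have := v.2; omega⟩
      obtain ⟨i, hi, he⟩ := List.getElem_of_mem hv
      have hi' : i < n := by have := w.2.1; omega
      refine ⟨c w ⟨i, hi'⟩, ?_⟩
      rw [C2b_mem]
      refine ⟨⟨i, hi'⟩, ?_, rfl⟩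
      show w.1.getD i 0 = v.val + 1
      rw [List.getD_eq_getElem _ _ hi, he]⟩)
  have hF : Function.Injective F := by
    intro w w' he
    have e1 : c w = c w' := (Prod.mk.inj he).1
    have e2 : C2b_V n k (j + 1) (fun i => w.1.getD i.val 0) (c w) =
        C2b_V n k (j + 1) (fun i => w'.1.getD i.val 0) (c w') :=
      Subtype.mk.inj (Prod.mk.inj he).2
    have key := anti_unique n (j + 1) (fun i => w.1.getD i.val 0) (fun i => w'.1.getD i.val 0) (c w)
      (hc w) (by rw [e1]; exact hc w') (by
        intro v γ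
        by_cases hv : 1 ≤ v ∧ v ≤ k
        · have h1 := C2b_mem n k (j + 1) (fun i => w.1.getD i.val 0) (c w) (⟨v - 1, by omega⟩, γ)
          have h2 := C2b_mem n k (j + 1) (fun i => w'.1.getD i.val 0) (c w') (⟨v - 1, by omega⟩, γ)
          rw [e2, h2] at h1
          have h3 : v - 1 + 1 = v := by omega
          simp only [h3] at h1
          rw [← e1] at h1
          exact h1.symm
        · constructor
          · rintro ⟨i, h1, -⟩
            have := hW w i
            exfalso
            apply hv
            rw [← h1]; exact this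
          · rintro ⟨i, h1, -⟩
            have := hW w' i
            exfalso
            apply hv
            rw [← h1]; exact this)
    apply Subtype.ext
    apply List.ext_getElem (by rw [w.2.1, w'.2.1])
    intro i h1 h2
    have hi : i < n := by have := w.2.1; omega
    have := congrFun key ⟨i, hi⟩
    simp only at this
    rw [List.getD_eq_getElem _ _ h1, List.getD_eq_getElem _ _ h2] at this
    exact this
  have h1 : b n k ≤ (j + 1) ^ n * ((j + 1) ^ k * (k * (j + 1)) ^ j) := by
    calc b n k = Nat.card (Bset n k) := (Nat.card_coe_set_eq _).symm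
      _ ≤ Nat.card ((Fin n → Fin (j + 1)) ×
        {V : Finset (Fin k × Fin (j + 1)) // V.card = k + j ∧ ∀ v : Fin k, ∃ γ : Fin (j + 1), (v, γ) ∈ V}) :=
          Nat.card_le_card_of_injective F hF
      _ = (j + 1) ^ n * Nat.card
        {V : Finset (Fin k × Fin (j + 1)) // V.card = k + j ∧ ∀ v : Fin k, ∃ γ : Fin (j + 1), (v, γ) ∈ V} := by
          rw [Nat.card_prod]; congr 1; simp
      _ ≤ _ := Nat.mul_le_mul_left _ (count_V k j (j + 1))
  refine h1.trans ?_
  have h2 : (j + 1) ^ n * ((j + 1) ^ k * (k * (j + 1)) ^ j) = k ^ j * (j + 1) ^ (2 * n) := by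
    have : 2 * n = n + k + j := by omega
    rw [this, mul_pow, pow_add, pow_add]
    ring
  rw [h2]
  exact Nat.mul_le_mul_right _ (Nat.pow_le_pow_left (by omega) _)

end KC98
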