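import Pool.Agent.LibKC98.A6
import Pool.Agent.LibKC98.B1

/-!
# [KC98 C3] SHORT/MEDIUM. Lower bound for `b` by permutations, and monotonicity
PLAN `perm_lower`: `v ↦ v ++ List.replicate a 1` maps `PermSet m a` injectively to `Bset (m + a) (m + 1)`.  Letters: `v` has `m` distinct letters in
`[2, m+1]`, so all of them (`Finset.eq_of_subset_of_card_le`), and `1` occurs since `a ≥ 1`.  `Cent` by `cent_of_good`: a suffix is `s' ++ 1^a` with `s'` a
suffix of `v`, or a suffix of `1^a`; the letters of `l` are `> 1`, so `l` is a sublist of `s'`, hence of `v`, so `l.length ≤ a = count 1` (resp. `l = []`).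
PLAN `perm_mono`: enough `m ↦ m + 1`: `v ↦ (m + 2) :: v`: a weakly increasing sublist containing the first letter `m + 2` has no other
letter (all letters of `v` are smaller), so length `1 ≤ a`.
-/

namespace KC98

private theorem C3_mem {m : ℕ} {v : List ℕ} (hn : v.Nodup) (hl : v.length = m)
    (hv : ∀ x ∈ v, 2 ≤ x ∧ x ≤ m + 1) (i : ℕ) (h1 : 2 ≤ i) (h2 : i ≤ m + 1) : i ∈ v := by
  have hsub : v.toFinset ⊆ Finset.Icc 2 (m + 1) := by
    intro x hx
    rw [List.mem_toFinset] at hx
    exact Finset.mem_Icc.2 (hv x hx)
  have hcard : (Finset.Icc 2 (m + 1)).card ≤ v.toFinset.card := by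
    rw [List.toFinset_card_of_nodup hn, hl, Nat.card_Icc]
    omega
  have heq := Finset.eq_of_subset_of_card_le hsub hcard
  have : i ∈ v.toFinset := by
    rw [heq]
    exact Finset.mem_Icc.2 ⟨h1, h2⟩
  exact List.mem_toFinset.1 this

private theorem C3_nil {a : ℕ} {l : List ℕ} (hl : ∀ x ∈ l, x ∈ List.replicate a 1) (h : ∀ x ∈ l, 1 < x) :
    l = [] := by
  rw [List.eq_nil_iff_forall_not_mem]
  intro x hx
  have h1 := List.eq_of_mem_replicate (hl x hx)
  have h2 := h x hx
  omega

theorem perm_lower (m a : ℕ) (ha : 1 ≤ a) : (PermSet m a).ncard ≤ b (m + a) (m + 1) := by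
  refine Set.ncard_le_ncard_of_injOn (fun v => v ++ List.replicate a 1) ?_ ?_ (bset_finite _ _)
  · rintro v ⟨hn, hl, hv, hinc⟩
    refine ⟨?_, ?_, ?_⟩
    · simp [hl]
    · intro i
      constructor
      · intro hi
        rcases List.mem_append.1 hi with hi | hi
        · have := hv i hi
          omega
        · have := List.eq_of_mem_replicate hi
          omega
      · rintro ⟨h1, h2⟩
        by_cases hi : i = 1
        · subst hi
          apply List.mem_append_right
          exact List.mem_replicate.2 ⟨by omega, rfl⟩
        · exact List.mem_append_left _ (C3_mem hn hl hv i (by omega) h2)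
    · apply cent_of_good
      · intro x hx
        rcases List.mem_append.1 hx with hx | hx
        · have := hv x hx
          omega
        · have := List.eq_of_mem_replicate hx
          omega
      · intro s hs l hls hp hl1
        rcases List.suffix_or_suffix_of_suffix hs (List.suffix_append v (List.replicate a 1)) with h | h
        · have : l = [] := C3_nil (fun x hx => h.subset (hls.subset hx)) hl1
          simp [this]
        · have hc : a ≤ s.count 1 := by
            have := h.sublist.count_le 1
            simpa using this
          obtain ⟨l1, l2, rfl, h1, h2⟩ := List.sublist_append_iff.1 (hls.trans hs.sublist)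
          have : l2 = [] := C3_nil (fun x hx => h2.subset hx) (fun x hx => hl1 x (List.mem_append_right _ hx))
          subst this
          rw [List.append_nil] at hp ⊢
          exact le_trans (hinc l1 h1 hp) hc
  · intro v _ w _ h
    exact List.append_cancel_right h

private theorem C3_step (m a : ℕ) (ha : 1 ≤ a) :
    (PermSet m a).ncard ≤ (PermSet (m + 1) a).ncard := by
  refine Set.ncard_le_ncard_of_injOn (fun v => (m + 2) :: v) ?_ ?_ (perm_finite _ _)
  · rintro v ⟨hn, hl, hv, hinc⟩
    refine ⟨?_, ?_, ?_, ?_⟩
    · refine List.nodup_cons.2 ⟨?_, hn⟩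
      intro h
      have := hv _ h
      omega
    · simp [hl]
    · intro x hx
      rcases List.mem_cons.1 hx with hx | hx
      · omega
      · have := hv x hx
        omega
    · intro l hls hp
      rcases List.sublist_cons_iff.1 hls with h | ⟨r, rfl, hr⟩
      · exact hinc l h hp
      · have : r = [] := by
          rw [List.eq_nil_iff_forall_not_mem]
          intro x hx
          have h1 := List.rel_of_pairwise_cons hp hx
          have h2 := hv x (hr.subset hx)
          omega
        subst this
        simpa using ha
  · intro v _ w _ h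
    exact (List.cons.inj h).2

theorem perm_mono (m m' a : ℕ) (ha : 1 ≤ a) (h : m ≤ m') :
    (PermSet m a).ncard ≤ (PermSet m' a).ncard := by
  induction m', h using Nat.le_induction with
  | base => exact le_rfl
  | succ n _ ih => exact le_trans ih (C3_step n a ha)

end KC98
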