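import Pool.Agent.LibKC98.B1

/-!
# [KC98 C5] MEDIUM. Many lattice words
PLAN: `pre = (List.range a).flatMap (fun i => List.replicate ((a - 1 - i) * L) (i + 1))`, `suf = (List.range a).flatMap (fun i => List.replicate (i * L) (i + 1))`
(letter `i + 1` occurs `(a - 1 - i) L` times in `pre` and `i L` times in `suf`).  For a list `Bs` of `r` blocks in `Bal a L` put
`w = pre ++ Bs.flatten ++ suf`: length `a ((a-1) L + r L)`, each letter occurs `(a-1) L + r L` times.
Lattice condition for a prefix `q` of `w` and letters `i`, `i + 1` (`1 ≤ i < a`): (1) `q` a prefix of `pre`: the letters come in increasing order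
(`i + 1` only after all `(a - i) L` letters `i`), so count(i+1) ≤ count(i).  (2) `q = pre ++ q'`, `q'` a prefix of `Bs.flatten`:
count i - count (i+1) in `pre` is `L`, and `q'` = full blocks ++ part of one block, so count(i+1) in `q'` ≤ count(i) in `q'` + `L`
(induction on `Bs`).  (3) `q = pre ++ Bs.flatten ++ q'`, `q'` a prefix of `suf`: before it the difference is `L`; if `q'` contains some `i + 1` then it
contains all `(i-1) L` letters `i`, and at most `i L` letters `i + 1`, so the difference is `≥ L + (i - 1) L - i L = 0`.
Tip: prove for `pre` and `suf` a general lemma: for a prefix `q` of `(List.range a).flatMap (fun i => List.replicate (f i) (i + 1))`,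
`q.count (i + 1 + 1) = 0 ∨ q.count (i + 1) = f i`.
Injective in `Bs`: cancel `pre`, `suf`, `flatten_inj (a * L)`.  `ncard_lists`, `bal_finite`, `lat_finite`.
-/

namespace KC98

private def C5_mono (f : ℕ → ℕ) (n : ℕ) : List ℕ :=
  (List.range n).flatMap (fun i => List.replicate (f i) (i + 1))

private theorem C5_succ (f : ℕ → ℕ) (n : ℕ) :
    C5_mono f (n + 1) = C5_mono f n ++ List.replicate (f n) (n + 1) := by
  unfold C5_mono
  rw [List.range_succ, List.flatMap_append, List.flatMap_singleton]

private theorem C5_zero (f : ℕ → ℕ) : C5_mono f 0 = [] := by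
  unfold C5_mono
  rw [List.range_zero, List.flatMap_nil]

private theorem C5_mem (f : ℕ → ℕ) (n : ℕ) : ∀ x ∈ C5_mono f n, 1 ≤ x ∧ x ≤ n := by
  intro x hx
  unfold C5_mono at hx
  rw [List.mem_flatMap] at hx
  obtain ⟨i, hi, hx⟩ := hx
  rw [List.mem_range] at hi
  rw [List.eq_of_mem_replicate hx]
  omega

private theorem C5_count_big (f : ℕ → ℕ) (n j : ℕ) (h : n < j) : (C5_mono f n).count j = 0 := by
  rw [List.count_eq_zero]
  intro hj
  have := (C5_mem f n j hj).2
  omega

private theorem C5_count (f : ℕ → ℕ) (n j : ℕ) (h : j < n) : (C5_mono f n).count (j + 1) = f j := by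
  induction n with
  | zero => omega
  | succ n ih =>
    rw [C5_succ, List.count_append]
    rcases Nat.lt_succ_iff_lt_or_eq.1 h with h1 | h1
    · rw [ih h1, List.count_replicate]
      have h2 : ¬ ((n + 1 == j + 1) = true) := by
        rw [beq_iff_eq]; omega
      rw [if_neg h2, add_zero]
    · rw [C5_count_big f n (j + 1) (by omega), h1, List.count_replicate_self, zero_add]

private theorem C5_take (f : ℕ → ℕ) (n k i : ℕ) (h : i < n) :
    ((C5_mono f n).take k).count (i + 1 + 1) = 0 ∨ ((C5_mono f n).take k).count (i + 1) = f i := by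
  induction n with
  | zero => omega
  | succ n ih =>
    rw [C5_succ, List.take_append, List.count_append, List.count_append]
    rcases Nat.lt_succ_iff_lt_or_eq.1 h with h1 | h1
    · rcases le_or_gt k (C5_mono f n).length with h2 | h2
      · rw [Nat.sub_eq_zero_of_le h2, List.take_zero, List.count_nil, List.count_nil, add_zero, add_zero]
        exact ih h1
      · right
        rw [List.take_of_length_le h2.le, C5_count f n i h1, List.take_replicate, List.count_replicate]
        have h3 : ¬ ((n + 1 == i + 1) = true) := by
          rw [beq_iff_eq]; omega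
        rw [if_neg h3, add_zero]
    · left
      have h2 : ((C5_mono f n).take k).count (i + 1 + 1) = 0 := by
        have h3 := List.Sublist.count_le (i + 1 + 1) (List.take_sublist k (C5_mono f n))
        rw [C5_count_big f n (i + 1 + 1) (by omega)] at h3
        omega
      rw [h2, List.take_replicate, List.count_replicate]
      have h3 : ¬ ((n + 1 == i + 1 + 1) = true) := by
        rw [beq_iff_eq]; omega
      rw [if_neg h3, add_zero]

private theorem C5_mid (a L : ℕ) : ∀ Bs : List (List ℕ), (∀ x ∈ Bs, x ∈ Bal a L) → ∀ k i : ℕ, 1 ≤ i → i < a →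
    (Bs.flatten.take k).count (i + 1) ≤ (Bs.flatten.take k).count i + L := by
  intro Bs
  induction Bs with
  | nil =>
    intro _ k i _ _
    rw [List.flatten_nil, List.take_nil, List.count_nil]
    omega
  | cons B Bs ih =>
    intro hB k i hi hia
    have h1 := hB B List.mem_cons_self
    have h2 := ih (fun x hx => hB x (List.mem_cons_of_mem _ hx))
    rw [List.flatten_cons, List.take_append, List.count_append, List.count_append]
    rcases le_or_gt k B.length with h3 | h3
    · rw [Nat.sub_eq_zero_of_le h3, List.take_zero, List.count_nil, List.count_nil, add_zero, add_zero]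
      have h4 := List.Sublist.count_le (i + 1) (List.take_sublist k B)
      have h5 := h1.2.2 (i + 1) (by omega) (by omega)
      omega
    · rw [List.take_of_length_le h3.le, h1.2.2 (i + 1) (by omega) (by omega), h1.2.2 i hi (by omega)]
      have h4 := h2 (k - B.length) i hi hia
      omega

private theorem C5_midcount (a L : ℕ) : ∀ Bs : List (List ℕ), (∀ x ∈ Bs, x ∈ Bal a L) → ∀ i : ℕ, 1 ≤ i → i ≤ a →
    Bs.flatten.count i = Bs.length * L := by
  intro Bs
  induction Bs with
  | nil =>
    intro _ i _ _
    rw [List.flatten_nil, List.count_nil, List.length_nil, zero_mul]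
  | cons B Bs ih =>
    intro hB i hi hia
    have h1 := hB B List.mem_cons_self
    have h2 := ih (fun x hx => hB x (List.mem_cons_of_mem _ hx)) i hi hia
    rw [List.flatten_cons, List.count_append, h2, h1.2.2 i hi hia, List.length_cons]
    ring

private def C5_w (a L : ℕ) (Bs : List (List ℕ)) : List ℕ :=
  C5_mono (fun i => (a - 1 - i) * L) a ++ (Bs.flatten ++ C5_mono (fun i => i * L) a)

private theorem C5_lat (a L r : ℕ) (ha : 1 ≤ a) (Bs : List (List ℕ)) (hr : Bs.length = r)
    (hB : ∀ x ∈ Bs, x ∈ Bal a L) : C5_w a L Bs ∈ Lat a ((a - 1) * L + r * L) := by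
  have hmem : ∀ x ∈ C5_w a L Bs, 1 ≤ x ∧ x ≤ a := by
    intro x hx
    unfold C5_w at hx
    rw [List.mem_append, List.mem_append] at hx
    rcases hx with hx | hx | hx
    · exact C5_mem _ a x hx
    · rw [List.mem_flatten] at hx
      obtain ⟨B, hBB, hx⟩ := hx
      exact (hB B hBB).2.1 x hx
    · exact C5_mem _ a x hx
  have hcount : ∀ i, 1 ≤ i → i ≤ a → (C5_w a L Bs).count i = (a - 1) * L + r * L := by
    intro i hi hia
    obtain ⟨j, rfl⟩ : ∃ j, i = j + 1 := ⟨i - 1, by omega⟩
    unfold C5_w
    rw [List.count_append, List.count_append, C5_count _ a j (by omega), C5_count _ a j (by omega),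
      C5_midcount a L Bs hB (j + 1) hi hia, hr]
    have h1 : (a - 1 - j) * L + j * L = (a - 1) * L := by
      rw [← add_mul]
      congr 1
      omega
    omega
  refine ⟨?_, hmem, hcount, ?_⟩
  · have h1 : ∑ x ∈ Finset.Icc 1 a, Multiset.count x ((C5_w a L Bs : List ℕ) : Multiset ℕ) =
        Multiset.card ((C5_w a L Bs : List ℕ) : Multiset ℕ) := by
      refine Multiset.sum_count_eq_card ?_
      intro x hx
      rw [Multiset.mem_coe] at hx
      rw [Finset.mem_Icc]
      exact hmem x hx
    rw [Multiset.coe_card] at h1
    rw [← h1, Finset.sum_congr rfl (g := fun _ => (a - 1) * L + r * L), Finset.sum_const, Nat.card_Icc,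
      Nat.add_sub_cancel, smul_eq_mul]
    intro x hx
    rw [Finset.mem_Icc] at hx
    rw [Multiset.coe_count]
    exact hcount x hx.1 hx.2
  · intro q hq i hi hia
    rw [List.prefix_iff_eq_take] at hq
    obtain ⟨k, hk⟩ : ∃ k, k = q.length := ⟨_, rfl⟩
    rw [← hk] at hq
    rw [hq]
    unfold C5_w
    obtain ⟨j, rfl⟩ : ∃ j, i = j + 1 := ⟨i - 1, by omega⟩
    have hL1 : (a - 1 - j) * L = (a - 1 - (j + 1)) * L + L := by
      have : a - 1 - j = (a - 1 - (j + 1)) + 1 := by omega
      rw [this, add_mul, one_mul]
    have hL2 : (j + 1) * L = j * L + L := by ring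
    rw [List.take_append, List.count_append, List.count_append]
    rcases le_or_gt k (C5_mono (fun i => (a - 1 - i) * L) a).length with h1 | h1
    · rw [Nat.sub_eq_zero_of_le h1, List.take_zero, List.count_nil, List.count_nil, add_zero, add_zero]
      rcases C5_take (fun i => (a - 1 - i) * L) a k j (by omega) with h2 | h2
      · omega
      · have h3 := List.Sublist.count_le (j + 1 + 1)
          (List.take_sublist k (C5_mono (fun i => (a - 1 - i) * L) a))
        rw [C5_count _ a (j + 1) (by omega)] at h3
        omega
    · rw [List.take_of_length_le h1.le, C5_count _ a (j + 1) (by omega), C5_count _ a j (by omega)]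
      obtain ⟨k', hk'⟩ : ∃ k', k' = k - (C5_mono (fun i => (a - 1 - i) * L) a).length := ⟨_, rfl⟩
      rw [← hk', List.take_append, List.count_append, List.count_append]
      rcases le_or_gt k' Bs.flatten.length with h2 | h2
      · rw [Nat.sub_eq_zero_of_le h2, List.take_zero, List.count_nil, List.count_nil, add_zero, add_zero]
        have h3 := C5_mid a L Bs hB k' (j + 1) hi hia
        omega
      · rw [List.take_of_length_le h2.le, C5_midcount a L Bs hB (j + 1 + 1) (by omega) (by omega),
          C5_midcount a L Bs hB (j + 1) (by omega) (by omega)]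
        rcases C5_take (fun i => i * L) a (k' - Bs.flatten.length) j (by omega) with h3 | h3
        · omega
        · have h4 := List.Sublist.count_le (j + 1 + 1)
            (List.take_sublist (k' - Bs.flatten.length) (C5_mono (fun i => i * L) a))
          rw [C5_count _ a (j + 1) (by omega)] at h4
          omega

theorem lat_lower (a L r : ℕ) (ha : 1 ≤ a) :
    (Bal a L).ncard ^ r ≤ (Lat a ((a - 1) * L + r * L)).ncard := by
  obtain ⟨-, h1⟩ := ncard_lists (Bal a L) (bal_finite a L) r
  rw [← h1]
  refine Set.ncard_le_ncard_of_injOn (C5_w a L) ?_ ?_ (lat_finite a _)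
  · intro Bs hBs
    exact C5_lat a L r ha Bs hBs.1 hBs.2
  · intro Bs hBs Bs' hBs' h
    unfold C5_w at h
    have h2 := List.append_cancel_right (List.append_cancel_left h)
    exact flatten_inj (a * L) Bs Bs' (fun x hx => (hBs.2 x hx).1) (fun x hx => (hBs'.2 x hx).1)
      (hBs.1.trans hBs'.1.symm) h2

end KC98
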