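import Mathlib

/-!
# [KC98 C6a] A permutation from two lattice words
`cnt p x i` = number of positions `y < x` with `p y = i`.
-/

namespace KC98

/-- number of positions `y < x` with letter `i` -/
def cnt {N a : ℕ} (p : Fin N → Fin a) (x : ℕ) (i : Fin a) : ℕ :=
  (Finset.univ.filter (fun y : Fin N => (y : ℕ) < x ∧ p y = i)).card

/-- lattice words as functions -/
def IsLatF (N a r : ℕ) (p : Fin N → Fin a) : Prop :=
  (∀ i, (Finset.univ.filter (fun y : Fin N => p y = i)).card = r) ∧
    ∀ (x : ℕ) (i i' : Fin a), (i : ℕ) + 1 = i' → cnt p x i' ≤ cnt p x i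

theorem lat_equiv (N a r : ℕ) (p : Fin N → Fin a) (hp : IsLatF N a r p) :
    ∃ E : Fin N ≃ Fin a × Fin r, (∀ x, (E x).1 = p x) ∧
      (∀ i (t t' : Fin r), t < t' → E.symm (i, t) < E.symm (i, t')) ∧
      (∀ (i i' : Fin a) (t : Fin r), i < i' → E.symm (i, t) < E.symm (i', t)) := by
  obtain ⟨hcard, hlat⟩ := hp
  let G : Fin a × Fin r → Fin N := fun z => (Finset.univ.filter (fun y : Fin N => p y = z.1)).orderEmbOfFin (hcard z.1) z.2
  have hG1 : ∀ i t, p (G (i, t)) = i := by
    intro i t
    have := Finset.orderEmbOfFin_mem (Finset.univ.filter (fun y : Fin N => p y = i)) (hcard i) t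
    exact (Finset.mem_filter.1 this).2
  have hGmono : ∀ i (t t' : Fin r), t < t' → G (i, t) < G (i, t') := by
    intro i t t' h
    exact ((Finset.univ.filter (fun y : Fin N => p y = i)).orderEmbOfFin (hcard i)).strictMono h
  have hGinj : Function.Injective G := by
    rintro ⟨i, t⟩ ⟨i', t'⟩ h
    have h1 : i = i' := by rw [← hG1 i t, ← hG1 i' t', h]
    subst h1
    have h2 : t = t' := by
      rcases lt_trichotomy t t' with h3 | h3 | h3
      · exact absurd h (ne_of_lt (hGmono i t t' h3))
      · exact h3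
      · exact absurd h (ne_of_gt (hGmono i t' t h3))
    rw [h2]
  have hGsurj : Function.Surjective G := by
    intro x
    have h1 : x ∈ Set.range ((Finset.univ.filter (fun y : Fin N => p y = p x)).orderEmbOfFin (hcard (p x))) := by
      rw [Finset.range_orderEmbOfFin]
      simp
    obtain ⟨t, ht⟩ := h1
    exact ⟨(p x, t), ht⟩
  have hGlat1 : ∀ (i i' : Fin a) (t : Fin r), (i : ℕ) + 1 = i' → G (i, t) < G (i', t) := by
    intro i i' t hi
    by_contra hcon
    push Not at hcon
    have hne : G (i', t) ≠ G (i, t) := by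
      intro h
      have := hGinj h
      simp only [Prod.mk.injEq, and_true] at this
      rw [this] at hi
      omega
    have hlt : G (i', t) < G (i, t) := lt_of_le_of_ne hcon hne
    have h1 := hlat ((G (i', t) : ℕ) + 1) i i' hi
    have h2 : (t : ℕ) + 1 ≤ cnt p ((G (i', t) : ℕ) + 1) i' := by
      have hc : ((Finset.univ.filter (fun s : Fin r => s ≤ t)).image (fun s => G (i', s))).card = (t : ℕ) + 1 := by
        rw [Finset.card_image_of_injective _ (fun s s' h => by
          have := hGinj h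
          simpa using this)]
        have : (Finset.univ.filter (fun s : Fin r => s ≤ t)) = Finset.Iic t := by ext s; simp
        rw [this, Fin.card_Iic]
      rw [← hc]
      apply Finset.card_le_card
      intro y hy
      obtain ⟨s, hs, rfl⟩ := Finset.mem_image.1 hy
      have hs' : s ≤ t := by simpa using hs
      refine Finset.mem_filter.2 ⟨Finset.mem_univ _, ?_, hG1 _ _⟩
      rcases eq_or_lt_of_le hs' with h | h
      · rw [h]; omega
      · have := hGmono i' s t h
        rw [Fin.lt_def] at this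
        omega
    have h3 : cnt p ((G (i', t) : ℕ) + 1) i ≤ (t : ℕ) := by
      have hc : ((Finset.univ.filter (fun s : Fin r => s < t)).image (fun s => G (i, s))).card ≤ (t : ℕ) := by
        refine Finset.card_image_le.trans ?_
        have : (Finset.univ.filter (fun s : Fin r => s < t)) = Finset.Iio t := by ext s; simp
        rw [this, Fin.card_Iio]
      refine le_trans (Finset.card_le_card ?_) hc
      intro y hy
      obtain ⟨-, hy1, hy2⟩ := Finset.mem_filter.1 hy
      obtain ⟨⟨j, s⟩, rfl⟩ := hGsurj y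
      rw [hG1] at hy2
      subst hy2
      refine Finset.mem_image.2 ⟨s, ?_, rfl⟩
      simp only [Finset.mem_filter, Finset.mem_univ, true_and]
      by_contra hs
      push Not at hs
      rw [Fin.lt_def] at hlt
      rcases eq_or_lt_of_le hs with h | h
      · subst h; omega
      · have := hGmono j t s h
        rw [Fin.lt_def] at this
        omega
    omega
  have hGlat : ∀ (d : ℕ) (i i' : Fin a) (t : Fin r), (i : ℕ) + d + 1 = i' → G (i, t) < G (i', t) := by
    intro d
    induction d with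
    | zero => intro i i' t h; exact hGlat1 i i' t (by omega)
    | succ d ih =>
      intro i i' t h
      have hlt : (i : ℕ) + d + 1 < a := by have := i'.2; omega
      exact (ih i ⟨(i : ℕ) + d + 1, hlt⟩ t rfl).trans (hGlat1 ⟨(i : ℕ) + d + 1, hlt⟩ i' t (by simp; omega))
  refine ⟨(Equiv.ofBijective G ⟨hGinj, hGsurj⟩).symm, ?_, ?_, ?_⟩
  · intro x
    obtain ⟨⟨i, t⟩, rfl⟩ := hGsurj x
    have : (Equiv.ofBijective G ⟨hGinj, hGsurj⟩).symm (G (i, t)) = (i, t) := by
      rw [Equiv.symm_apply_eq]
      rfl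
    rw [this, hG1]
  · intro i t t' h
    exact hGmono i t t' h
  · intro i i' t h
    exact hGlat ((i' : ℕ) - i - 1) i i' t (by rw [Fin.lt_def] at h; omega)

theorem exists_perm (N a r : ℕ) (p q : Fin N → Fin a) (hp : IsLatF N a r p) (hq : IsLatF N a r q) :
    ∃ π : Fin N ≃ Fin N, (∀ x, q (Fin.rev (π x)) = Fin.rev (p x)) ∧
      (∀ x y, x < y → π x < π y → p x < p y) ∧
      (∀ x, 0 < (p x : ℕ) → ∃ y, y < x ∧ π y < π x ∧ (p y : ℕ) + 1 = p x) := by
  obtain ⟨E, hE1, hE2, hE3⟩ := lat_equiv N a r p hp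
  obtain ⟨F, hF1, hF2, hF3⟩ := lat_equiv N a r q hq
  have hE2' : ∀ i (t t' : Fin r), E.symm (i, t) < E.symm (i, t') → t < t' := by
    intro i t t' h
    by_contra hcon
    push Not at hcon
    rcases eq_or_lt_of_le hcon with h1 | h1
    · rw [h1] at h; exact lt_irrefl _ h
    · exact lt_asymm h (hE2 i t' t h1)
  have hF2' : ∀ i (t t' : Fin r), F.symm (i, t) < F.symm (i, t') → t < t' := by
    intro i t t' h
    by_contra hcon
    push Not at hcon
    rcases eq_or_lt_of_le hcon with h1 | h1
    · rw [h1] at h; exact lt_irrefl _ h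
    · exact lt_asymm h (hF2 i t' t h1)
  let π : Fin N ≃ Fin N := (E.trans (Equiv.prodCongr Fin.revPerm (Equiv.refl (Fin r)))).trans (F.symm.trans Fin.revPerm)
  have hπ : ∀ x, π x = Fin.rev (F.symm (Fin.rev (p x), (E x).2)) := by
    intro x
    simp only [π, Equiv.trans_apply, Equiv.prodCongr_apply, Equiv.coe_refl, Fin.revPerm_apply]
    congr 2
    rw [← hE1 x]
    rfl
  have hEx : ∀ x, E.symm (p x, (E x).2) = x := by
    intro x
    rw [← hE1 x, Prod.mk.eta, Equiv.symm_apply_apply]
  refine ⟨π, ?_, ?_, ?_⟩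
  · intro x
    rw [hπ, Fin.rev_rev, ← hF1, Equiv.apply_symm_apply]
  · intro x y hxy hπxy
    rw [hπ, hπ, Fin.rev_lt_rev] at hπxy
    by_contra hcon
    push Not at hcon
    rcases eq_or_lt_of_le hcon with h1 | h1
    · -- same letter
      rw [h1] at hπxy
      have h2 := hF2' _ _ _ hπxy
      have h3 : (E x).2 < (E y).2 := by
        apply hE2' (p x)
        rw [hEx]
        rw [← h1, hEx]
        exact hxy
      exact lt_asymm h2 h3
    · have h4 : E.symm (p y, (E x).2) < E.symm (p y, (E y).2) := by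
        rw [hEx y]
        refine lt_trans ?_ hxy
        have := hE3 (p y) (p x) (E x).2 h1
        rwa [hEx x] at this
      have h5 := hE2' _ _ _ h4
      have h6 : F.symm (Fin.rev (p y), (E y).2) < F.symm (Fin.rev (p y), (E x).2) := by
        refine lt_trans hπxy ?_
        apply hF3
        rw [Fin.rev_lt_rev]
        exact h1
      exact lt_asymm h5 (hF2' _ _ _ h6)
  · intro x hx
    have hlt : (p x : ℕ) - 1 < a := by have := (p x).2; omega
    refine ⟨E.symm (⟨(p x : ℕ) - 1, hlt⟩, (E x).2), ?_, ?_, ?_⟩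
    · have := hE3 ⟨(p x : ℕ) - 1, hlt⟩ (p x) (E x).2 (by rw [Fin.lt_def]; simp; omega)
      rwa [hEx x] at this
    · rw [hπ, hπ, Fin.rev_lt_rev]
      have e1 : p (E.symm (⟨(p x : ℕ) - 1, hlt⟩, (E x).2)) = ⟨(p x : ℕ) - 1, hlt⟩ := by
        rw [← hE1, Equiv.apply_symm_apply]
      rw [e1, Equiv.apply_symm_apply]
      apply hF3
      rw [Fin.rev_lt_rev, Fin.lt_def]
      simp
      omega
    · have e1 : p (E.symm (⟨(p x : ℕ) - 1, hlt⟩, (E x).2)) = ⟨(p x : ℕ) - 1, hlt⟩ := by
        rw [← hE1, Equiv.apply_symm_apply]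
      rw [e1]
      simp
      omega

theorem perm_unique (N a : ℕ) (p q p' q' : Fin N → Fin a) (π : Fin N ≃ Fin N)
    (h1 : ∀ x, q (Fin.rev (π x)) = Fin.rev (p x)) (h1' : ∀ x, q' (Fin.rev (π x)) = Fin.rev (p' x))
    (h2 : ∀ x y, x < y → π x < π y → p x < p y) (h2' : ∀ x y, x < y → π x < π y → p' x < p' y)
    (h3 : ∀ x, 0 < (p x : ℕ) → ∃ y, y < x ∧ π y < π x ∧ (p y : ℕ) + 1 = p x)
    (h3' : ∀ x, 0 < (p' x : ℕ) → ∃ y, y < x ∧ π y < π x ∧ (p' y : ℕ) + 1 = p' x) :
    p = p' ∧ q = q' := by
  have key : ∀ (n : ℕ) (x : Fin N), (x : ℕ) = n → p x = p' x := by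
    intro n
    induction n using Nat.strong_induction_on with
    | _ n ih =>
      intro x hx
      have ih' : ∀ y, y < x → p y = p' y := by
        intro y hy
        rw [Fin.lt_def] at hy
        exact ih y (by omega) y rfl
      apply Fin.ext
      apply le_antisymm
      · rcases Nat.eq_zero_or_pos (p x : ℕ) with h | h
        · rw [h]; exact Nat.zero_le _
        · obtain ⟨y, hy1, hy2, hy3⟩ := h3 x h
          have h4 := h2' y x hy1 hy2
          rw [← ih' y hy1, Fin.lt_def] at h4
          omega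
      · rcases Nat.eq_zero_or_pos (p' x : ℕ) with h | h
        · rw [h]; exact Nat.zero_le _
        · obtain ⟨y, hy1, hy2, hy3⟩ := h3' x h
          have h4 := h2 y x hy1 hy2
          rw [ih' y hy1, Fin.lt_def] at h4
          omega
  have hpp : p = p' := funext fun x => key x x rfl
  refine ⟨hpp, ?_⟩
  funext z
  have hz : Fin.rev (π (π.symm (Fin.rev z))) = z := by
    rw [Equiv.apply_symm_apply, Fin.rev_rev]
  rw [← hz, h1, h1', hpp]

end KC98
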