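import Pool.Agent.LibKC98.B1
import Pool.Agent.LibKC98.C6a

/-!
# [KC98 C6b] MEDIUM. Pairs of lattice words give permutations without long increasing subword
PLAN: `N = a r`.  A word `p ∈ Lat a r` gives the function `p~ : Fin N → Fin a`, `p~ x = p[x] - 1`, with `IsLatF N a r p~` (fibres: `count`; prefix counts:
`cnt p~ x i = (p.take x).count (i + 1)`, `List.take_prefix`).  For `(p, q) ∈ Lat × Lat` choose `π` by `exists_perm` and put
`v = List.ofFn (fun x => (π x : ℕ) + 2)`: nodup, length `N`, letters in `[2, N+1]`; a weakly (hence strictly, nodup) increasing sublist is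
`v` restricted to positions `x_1 < x_2 < ...` with `π` increasing, so `p~` is strictly increasing along it by (2) of `exists_perm`, so it has at most `a` letters
(`List.sublist_iff_exists_orderEmbedding_getElem?_eq` / `List.sublist_iff_exists_fin_orderEmbedding_get_eq`, `Fintype.card_le_of_injective` into `Fin a`).
Injective: equal `v` gives equal `π`, `perm_unique` gives equal `p~`, `q~`, hence equal lists.  `Set.ncard_le_ncard_of_injOn`,
`Set.ncard_prod`, `perm_finite`.
-/

namespace KC98

/-- the function of a word -/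
private def C6b_toF (a N : ℕ) (ha : 0 < a) (p : List ℕ) (x : Fin N) : Fin a :=
  if h : p.getD x 0 - 1 < a then ⟨p.getD x 0 - 1, h⟩ else ⟨0, ha⟩

private theorem C6b_val {a N r : ℕ} (ha : 0 < a) {p : List ℕ} (hp : p ∈ Lat a r) (hN : N = a * r) (x : Fin N) :
    (C6b_toF a N ha p x : ℕ) + 1 = p.getD x 0 := by
  have hlen : p.length = N := by rw [hN]; exact hp.1
  have hx : (x : ℕ) < p.length := by rw [hlen]; exact x.2
  have h1 : p.getD x 0 = p[(x : ℕ)] := by
    rw [List.getD_eq_getElem?_getD, List.getElem?_eq_getElem hx, Option.getD_some]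
  have h2 := hp.2.1 p[(x : ℕ)] (List.getElem_mem hx)
  have h3 : p.getD x 0 - 1 < a := by
    rw [h1]
    omega
  unfold C6b_toF
  rw [dif_pos h3]
  show p.getD x 0 - 1 + 1 = p.getD x 0
  rw [h1]
  omega

private theorem C6b_cnt {a N r : ℕ} (ha : 0 < a) {p : List ℕ} (hp : p ∈ Lat a r) (hN : N = a * r) (i : Fin a) :
    ∀ x : ℕ, cnt (C6b_toF a N ha p) x i = (p.take x).count ((i : ℕ) + 1) := by
  have hlen : p.length = N := by rw [hN]; exact hp.1
  intro x
  induction x with
  | zero =>
    unfold cnt
    rw [List.take_zero, List.count_nil, Finset.card_eq_zero, Finset.filter_eq_empty_iff]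
    rintro y - ⟨h, -⟩
    exact absurd h (Nat.not_lt_zero _)
  | succ x ih =>
    by_cases hx : x < N
    · have hx' : x < p.length := by rw [hlen]; exact hx
      have h1 : p.take (x + 1) = p.take x ++ [p[x]] := by
        rw [List.take_add_one, List.getElem?_eq_getElem hx', Option.toList_some]
      rw [h1, List.count_append, ← ih]
      have h2 : (C6b_toF a N ha p ⟨x, hx⟩ : ℕ) + 1 = p[x] := by
        rw [C6b_val ha hp hN ⟨x, hx⟩, List.getD_eq_getElem?_getD, List.getElem?_eq_getElem hx', Option.getD_some]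
      by_cases hc : C6b_toF a N ha p ⟨x, hx⟩ = i
      · have h3 : [p[x]].count ((i : ℕ) + 1) = 1 := by
          rw [← h2, hc, List.count_singleton_self]
        rw [h3]
        unfold cnt
        have h4 : (Finset.univ.filter fun y : Fin N => (y : ℕ) < x + 1 ∧ C6b_toF a N ha p y = i) =
            insert ⟨x, hx⟩ (Finset.univ.filter fun y : Fin N => (y : ℕ) < x ∧ C6b_toF a N ha p y = i) := by
          ext y
          rw [Finset.mem_insert, Finset.mem_filter, Finset.mem_filter]
          constructor
          · rintro ⟨h5, h6, h7⟩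
            by_cases h8 : (y : ℕ) = x
            · left
              exact Fin.ext h8
            · right
              exact ⟨h5, by omega, h7⟩
          · rintro (h5 | ⟨h5, h6, h7⟩)
            · rw [h5]
              exact ⟨Finset.mem_univ _, Nat.lt_succ_self x, hc⟩
            · exact ⟨h5, by omega, h7⟩
        rw [h4, Finset.card_insert_of_notMem]
        intro h5
        rw [Finset.mem_filter] at h5
        exact absurd h5.2.1 (lt_irrefl _)
      · have h3 : [p[x]].count ((i : ℕ) + 1) = 0 := by
          rw [List.count_eq_zero, List.mem_singleton]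
          intro h4
          apply hc
          apply Fin.ext
          omega
        rw [h3, add_zero]
        unfold cnt
        congr 1
        ext y
        rw [Finset.mem_filter, Finset.mem_filter]
        constructor
        · rintro ⟨h5, h6, h7⟩
          refine ⟨h5, ?_, h7⟩
          by_contra h8
          have h9 : y = ⟨x, hx⟩ := Fin.ext (by show (y : ℕ) = x; omega)
          exact hc (h9 ▸ h7)
        · rintro ⟨h5, h6, h7⟩
          exact ⟨h5, by omega, h7⟩
    · have h1 : p.take (x + 1) = p.take x := by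
        rw [List.take_of_length_le (by omega), List.take_of_length_le (by omega)]
      rw [h1, ← ih]
      unfold cnt
      congr 1
      ext y
      rw [Finset.mem_filter, Finset.mem_filter]
      have h2 := y.2
      constructor
      · rintro ⟨h5, h6, h7⟩
        exact ⟨h5, by omega, h7⟩
      · rintro ⟨h5, h6, h7⟩
        exact ⟨h5, by omega, h7⟩

private theorem C6b_lat {a N r : ℕ} (ha : 0 < a) {p : List ℕ} (hp : p ∈ Lat a r) (hN : N = a * r) :
    IsLatF N a r (C6b_toF a N ha p) := by
  have hlen : p.length = N := by rw [hN]; exact hp.1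
  constructor
  · intro i
    have h1 := C6b_cnt ha hp hN i N
    have h0 : p.take N = p := List.take_of_length_le (by omega)
    rw [h0, hp.2.2.1 ((i : ℕ) + 1) (by omega) (by have := i.2; omega)] at h1
    rw [← h1]
    unfold cnt
    congr 1
    ext y
    rw [Finset.mem_filter, Finset.mem_filter]
    have h2 := y.2
    constructor
    · rintro ⟨h5, h6⟩
      exact ⟨h5, by omega, h6⟩
    · rintro ⟨h5, h6, h7⟩
      exact ⟨h5, h7⟩
  · intro x i i' hi
    rw [C6b_cnt ha hp hN, C6b_cnt ha hp hN, ← hi]
    have h1 := i'.2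
    exact hp.2.2.2 (p.take x) (List.take_prefix x p) ((i : ℕ) + 1) (by omega) (by omega)

private theorem C6b_inj {a N r : ℕ} (ha : 0 < a) {p p' : List ℕ} (hp : p ∈ Lat a r) (hp' : p' ∈ Lat a r) (hN : N = a * r)
    (h : C6b_toF a N ha p = C6b_toF a N ha p') : p = p' := by
  have hlen : p.length = N := by rw [hN]; exact hp.1
  have hlen' : p'.length = N := by rw [hN]; exact hp'.1
  refine List.ext_getElem (hlen.trans hlen'.symm) fun x h1 h2 => ?_
  have hx : x < N := by omega
  have h3 := C6b_val ha hp hN ⟨x, hx⟩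
  have h4 := C6b_val ha hp' hN ⟨x, hx⟩
  rw [h] at h3
  rw [List.getD_eq_getElem?_getD] at h3 h4
  have h5 : p[x]? = some p[x] := List.getElem?_eq_getElem h1
  have h6 : p'[x]? = some p'[x] := List.getElem?_eq_getElem h2
  have h7 : (p[x]?).getD 0 = (p'[x]?).getD 0 := h3.symm.trans h4
  rw [h5, h6, Option.getD_some, Option.getD_some] at h7
  exact h7

theorem lat_perm (a r : ℕ) (ha : 1 ≤ a) : (Lat a r).ncard ^ 2 ≤ (PermSet (a * r) a).ncard := by
  have hex : ∀ pq : List ℕ × List ℕ, pq ∈ Lat a r ×ˢ Lat a r → ∃ π : Fin (a * r) ≃ Fin (a * r),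
      (∀ x, C6b_toF a (a * r) ha pq.2 (Fin.rev (π x)) = Fin.rev (C6b_toF a (a * r) ha pq.1 x)) ∧
      (∀ x y, x < y → π x < π y → C6b_toF a (a * r) ha pq.1 x < C6b_toF a (a * r) ha pq.1 y) ∧
      (∀ x, 0 < (C6b_toF a (a * r) ha pq.1 x : ℕ) →
        ∃ y, y < x ∧ π y < π x ∧ (C6b_toF a (a * r) ha pq.1 y : ℕ) + 1 = C6b_toF a (a * r) ha pq.1 x) := by
    rintro ⟨p, q⟩ ⟨hp, hq⟩
    exact exists_perm (a * r) a r _ _ (C6b_lat ha hp rfl) (C6b_lat ha hq rfl)
  choose! π hπ using hex
  have hprod : (Lat a r).ncard ^ 2 = (Lat a r ×ˢ Lat a r).ncard := by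
    rw [Set.ncard_prod, sq]
  rw [hprod]
  refine Set.ncard_le_ncard_of_injOn (fun pq => List.ofFn fun x => ((π pq x : Fin (a * r)) : ℕ) + 2) ?_ ?_
    (perm_finite (a * r) a)
  · intro pq hpq
    obtain ⟨-, h2, -⟩ := hπ pq hpq
    have hinj : Function.Injective fun x : Fin (a * r) => ((π pq x : Fin (a * r)) : ℕ) + 2 := by
      intro x y hxy
      have h3 : ((π pq x : Fin (a * r)) : ℕ) = (π pq y : Fin (a * r)) := by
        have h4 : ((π pq x : Fin (a * r)) : ℕ) + 2 = ((π pq y : Fin (a * r)) : ℕ) + 2 := hxy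
        omega
      exact (π pq).injective (Fin.ext h3)
    refine ⟨List.nodup_ofFn.2 hinj, List.length_ofFn, ?_, ?_⟩
    · intro x hx
      rw [List.mem_ofFn] at hx
      obtain ⟨y, rfl⟩ := hx
      have h3 := (π pq y).2
      constructor
      · exact Nat.le_add_left _ _
      · show ((π pq y : Fin (a * r)) : ℕ) + 2 ≤ a * r + 1
        omega
    · intro l hl hmono
      obtain ⟨f, hf⟩ := List.sublist_iff_exists_fin_orderEmbedding_get_eq.1 hl
      have hcast : ∀ ix : Fin l.length, ((f ix : ℕ)) < a * r := by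
        intro ix
        exact lt_of_lt_of_eq (f ix).2 List.length_ofFn
      have hget : ∀ ix : Fin l.length, l.get ix = ((π pq ⟨f ix, hcast ix⟩ : Fin (a * r)) : ℕ) + 2 := by
        intro ix
        rw [hf ix, List.get_eq_getElem, List.getElem_ofFn]
      have hstr : ∀ ix iy : Fin l.length, ix < iy →
          C6b_toF a (a * r) ha pq.1 ⟨f ix, hcast ix⟩ < C6b_toF a (a * r) ha pq.1 ⟨f iy, hcast iy⟩ := by
        intro ix iy hlt
        have h3 : f ix < f iy := f.lt_iff_lt.2 hlt
        have h4 : l.get ix ≤ l.get iy := List.pairwise_iff_get.1 hmono ix iy hlt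
        rw [hget ix, hget iy] at h4
        refine h2 _ _ h3 ?_
        refine lt_of_le_of_ne (by
          show ((π pq ⟨f ix, hcast ix⟩ : Fin (a * r)) : ℕ) ≤ (π pq ⟨f iy, hcast iy⟩ : Fin (a * r))
          omega) ?_
        intro h5
        have h6 := (π pq).injective h5
        have h7 : (f ix : ℕ) = f iy := by
          have h9 := Fin.val_eq_of_eq h6
          exact h9
        have h8 : (f ix : ℕ) < f iy := h3
        omega
      have hinj2 : Function.Injective fun ix : Fin l.length => C6b_toF a (a * r) ha pq.1 ⟨f ix, hcast ix⟩ := by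
        intro ix iy h3
        rcases lt_trichotomy ix iy with h4 | h4 | h4
        · exact absurd h3 (hstr ix iy h4).ne
        · exact h4
        · exact absurd h3.symm (hstr iy ix h4).ne
      have h3 := Fintype.card_le_of_injective _ hinj2
      rw [Fintype.card_fin, Fintype.card_fin] at h3
      exact h3
  · intro pq hpq pq' hpq' heq
    have h1 : (fun x => ((π pq x : Fin (a * r)) : ℕ) + 2) = fun x => ((π pq' x : Fin (a * r)) : ℕ) + 2 :=
      List.ofFn_injective heq
    have h2 : π pq = π pq' := by
      apply Equiv.ext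
      intro x
      apply Fin.ext
      have h3 := congrFun h1 x
      have h4 : ((π pq x : Fin (a * r)) : ℕ) + 2 = ((π pq' x : Fin (a * r)) : ℕ) + 2 := h3
      omega
    obtain ⟨h3, h4, h5⟩ := hπ pq hpq
    obtain ⟨h3', h4', h5'⟩ := hπ pq' hpq'
    rw [← h2] at h3' h4' h5'
    obtain ⟨h6, h7⟩ := perm_unique (a * r) a _ _ _ _ (π pq) h3 h3' h4 h4' h5 h5'
    exact Prod.ext (C6b_inj ha hpq.1 hpq'.1 rfl h6) (C6b_inj ha hpq.2 hpq'.2 rfl h7)

end KC98
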