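import Mathlib

/-!
# [KC98 C7] MEDIUM. Numerics for the right end
PLAN: `L = 16 a^4`, `D = a L = 16 a^5`, `r = (n - a) / D - (a - 1)` (natural numbers; `(n-a)/D ≥ a - 1` as `n ≥ 1000 a^9`), so
`a ((a-1) L + r L) = D ((a - 1) + r) ≤ n - a` and `n ≤ r D + a D + a` (i.e. `r D ≥ n - a² L - a`), `r ≤ n / D`.
`X ≥ 1`.  With natural logarithms `log X ≥ D log a - a² log (L+1)`; to show
`(2a - 2) log n + 2 n log (a+1) + 2 n log (a-1) ≤ 4 r log X`.
`log (a-1) + log (a+1) ≤ 2 log a - 1/a²` (`Real.log_le_sub_one_of_pos` for `1 - 1/a²`).  So it suffices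
`4 n log a - 2 n/a² + 2 (a-1) log n ≤ 4 r D log a - 4 r a² log (L+1)`, and for this
`4 (a² L + a) log a + 4 r a² log (L+1) + 2 (a-1) log n ≤ 2 n/a²`:
(a) `4 r a² log (L+1) ≤ 4 (n/(16 a^5)) a² (4 a) = n/a²` using `log (16 a^4 + 1) ≤ 4 a` for `a ≥ 2` (from `exp a ≥ 1 + a + a²/2 ≥ 2a + 1/2`, 4th power);
(b) `4 (16 a^6 + a) log a ≤ 68 a^6 * a ≤ n/(2 a²)` (as `136 a^9 ≤ n`);
(c) `2 (a-1) log n ≤ 2 a log n ≤ n/(2 a²)`: `log n ≤ 2 √n`, `8 a³ ≤ √n` (as `64 a^6 ≤ n`).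
Then exponentiate.
-/

namespace KC98

private theorem C7_log_L (A : ℝ) (hA : 2 ≤ A) : Real.log (16 * A ^ 4 + 1) ≤ 4 * A := by
  have h1 : 2 * A + 1 / 2 ≤ Real.exp A := by
    have := Real.quadratic_le_exp_of_nonneg (show (0 : ℝ) ≤ A by linarith)
    nlinarith [sq_nonneg (A - 1)]
  have h2 : (2 * A + 1 / 2) ^ 4 ≤ Real.exp A ^ 4 := by
    apply pow_le_pow_left₀ (by linarith) h1
  have h3 : Real.exp A ^ 4 = Real.exp (4 * A) := by
    rw [← Real.exp_nat_mul]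
    norm_num
  have h4 : 16 * A ^ 4 + 1 ≤ (2 * A + 1 / 2) ^ 4 := by
    have h5 : (2 * A + 1 / 2) ^ 4 = 16 * A ^ 4 + 16 * A ^ 3 + 6 * A ^ 2 + A + 1 / 16 := by ring
    rw [h5]
    have : 0 ≤ A ^ 3 := by positivity
    have h6 : 0 ≤ A ^ 2 := by positivity
    nlinarith
  have h7 : (0 : ℝ) < 16 * A ^ 4 + 1 := by positivity
  rw [Real.log_le_iff_le_exp h7]
  linarith

private theorem C7_real (A N R D ℓ lA lL lN lX lP lM : ℝ) (hA : 2 ≤ A) (hN : 1000 * A ^ 9 ≤ N) (hR : 0 ≤ R)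
    (hD : D = 16 * A ^ 5) (h1 : R * D ≤ N) (h2 : N ≤ R * D + A * D + A)
    (hlA0 : 0 ≤ lA) (hlA : lA ≤ A) (hlL : lL ≤ 4 * A) (hlN0 : 0 ≤ lN) (hlN : lN ≤ ℓ)
    (hℓ : 4 * A ^ 3 * ℓ ≤ N)
    (hPM : lP + lM ≤ 2 * lA - 1 / A ^ 2)
    (hX : D * lA - A ^ 2 * lL ≤ lX) :
    (2 * A - 2) * lN + 2 * N * (lP + lM) ≤ 4 * R * lX := by
  have hA0 : 0 < A := by linarith
  have hN0 : 0 ≤ N := le_trans (by positivity) hN
  have hA2 : 0 < A ^ 2 := by positivity
  have e1 : 2 * N * (lP + lM) ≤ 2 * N * (2 * lA - 1 / A ^ 2) :=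
    mul_le_mul_of_nonneg_left hPM (by linarith)
  have e2 : 4 * R * (D * lA - A ^ 2 * lL) ≤ 4 * R * lX :=
    mul_le_mul_of_nonneg_left hX (by linarith)
  -- (a)
  have ea : 4 * R * (A ^ 2 * lL) ≤ N / A ^ 2 := by
    have h3 : 4 * R * (A ^ 2 * lL) ≤ 4 * R * (A ^ 2 * (4 * A)) := by
      apply mul_le_mul_of_nonneg_left _ (by linarith)
      exact mul_le_mul_of_nonneg_left hlL hA2.le
    rw [le_div_iff₀ hA2]
    calc 4 * R * (A ^ 2 * lL) * A ^ 2 ≤ 4 * R * (A ^ 2 * (4 * A)) * A ^ 2 :=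
          mul_le_mul_of_nonneg_right h3 hA2.le
      _ = R * (16 * A ^ 5) := by ring
      _ ≤ N := by rw [← hD]; exact h1
  -- (b)
  have eb : 4 * (A * D + A) * lA ≤ N / A ^ 2 / 2 := by
    have hp : (1 : ℝ) ≤ A ^ 5 := one_le_pow₀ (by linarith)
    have h3 : A * D + A ≤ 17 * A ^ 6 := by
      rw [hD]
      have : A ≤ A ^ 6 := by
        calc A = A * 1 := by ring
          _ ≤ A * A ^ 5 := mul_le_mul_of_nonneg_left hp hA0.le
          _ = A ^ 6 := by ring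
      nlinarith
    have h4 : 4 * (A * D + A) * lA ≤ 4 * (17 * A ^ 6) * A := by
      apply mul_le_mul (by linarith) hlA hlA0 (by positivity)
    rw [div_div, le_div_iff₀ (by positivity)]
    calc 4 * (A * D + A) * lA * (A ^ 2 * 2) ≤ 4 * (17 * A ^ 6) * A * (A ^ 2 * 2) :=
          mul_le_mul_of_nonneg_right h4 (by positivity)
      _ = 136 * A ^ 9 := by ring
      _ ≤ 1000 * A ^ 9 := by
          have : 0 ≤ A ^ 9 := by positivity
          linarith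
      _ ≤ N := hN
  -- (c)
  have ec : (2 * A - 2) * lN ≤ N / A ^ 2 / 2 := by
    rw [div_div, le_div_iff₀ (by positivity)]
    have h3 : (2 * A - 2) * lN ≤ 2 * A * ℓ := by
      apply mul_le_mul (by linarith) hlN hlN0 (by linarith)
    calc (2 * A - 2) * lN * (A ^ 2 * 2) ≤ 2 * A * ℓ * (A ^ 2 * 2) :=
          mul_le_mul_of_nonneg_right h3 (by positivity)
      _ = 4 * A ^ 3 * ℓ := by ring
      _ ≤ N := hℓ
  have e3 : 4 * (N - A * D - A) * lA ≤ 4 * (R * D) * lA := by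
    apply mul_le_mul_of_nonneg_right _ hlA0
    linarith
  have e4 : 2 * N * (2 * lA - 1 / A ^ 2) = 4 * N * lA - 2 * (N / A ^ 2) := by
    field_simp
    ring
  nlinarith [e1, e2, ea, eb, ec, e3, e4]

theorem right_num (n a : ℕ) (ha : 2 ≤ a) (hn : 1000 * a ^ 9 ≤ n) :
    ∃ L r : ℕ, a * ((a - 1) * L + r * L) + a ≤ n ∧
      ∀ X : ℕ, a ^ (a * L) ≤ X * (L + 1) ^ (a * a) →
        (n ^ a * (a + 1) ^ (2 * n)) * (n ^ (a - 2) * (a - 1) ^ (2 * n)) ≤ ((X ^ r) ^ 2) ^ 2 := by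
  have hDpos : 0 < 16 * a ^ 5 := by positivity
  obtain ⟨q, hq⟩ : ∃ q, q = (n - a) / (16 * a ^ 5) := ⟨_, rfl⟩
  have p1 : a ≤ a ^ 9 := by
    calc a = a ^ 1 := (pow_one a).symm
      _ ≤ a ^ 9 := Nat.pow_le_pow_right (by omega) (by norm_num)
  have p6 : a ^ 6 ≤ a ^ 9 := Nat.pow_le_pow_right (by omega) (by norm_num)
  have han : a ≤ n := by omega
  have h1 : 16 * a ^ 5 * q ≤ n - a := by rw [hq]; exact Nat.mul_div_le _ _
  have h2 : n - a < 16 * a ^ 5 * (q + 1) := by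
    rw [hq]; exact Nat.lt_mul_div_succ _ hDpos
  have h3 : a - 1 ≤ q := by
    rw [hq, Nat.le_div_iff_mul_le hDpos]
    have h4 : (a - 1) * (16 * a ^ 5) ≤ a * (16 * a ^ 5) := Nat.mul_le_mul_right _ (by omega)
    have h5 : a * (16 * a ^ 5) = 16 * a ^ 6 := by ring
    omega
  obtain ⟨r, hr⟩ : ∃ r, q = (a - 1) + r := Nat.exists_eq_add_of_le h3
  refine ⟨16 * a ^ 4, r, ?_, ?_⟩
  · have h4 : a * ((a - 1) * (16 * a ^ 4) + r * (16 * a ^ 4)) = 16 * a ^ 5 * q := by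
      rw [hr]; ring
    rw [h4]
    omega
  · intro X hX
    obtain ⟨b, hb⟩ : ∃ b, a = b + 2 := ⟨a - 2, by omega⟩
    have hXpos : 0 < X := by
      rcases Nat.eq_zero_or_pos X with h | h
      · rw [h, zero_mul] at hX
        have : 0 < a ^ (a * (16 * a ^ 4)) := by positivity
        omega
      · exact h
    have hn0 : 0 < n := by omega
    -- real numbers
    have hA : (2 : ℝ) ≤ (a : ℝ) := by exact_mod_cast ha
    have hA0 : (0 : ℝ) < (a : ℝ) := by linarith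
    have hN : 1000 * (a : ℝ) ^ 9 ≤ (n : ℝ) := by exact_mod_cast hn
    have hN0 : (0 : ℝ) < (n : ℝ) := by exact_mod_cast hn0
    have hX0 : (0 : ℝ) < (X : ℝ) := by exact_mod_cast hXpos
    have hA1 : (0 : ℝ) < (a : ℝ) - 1 := by linarith
    have c1 : (r : ℝ) * (16 * (a : ℝ) ^ 5) ≤ (n : ℝ) := by
      have : r * (16 * a ^ 5) ≤ n := by
        have h5 : 16 * a ^ 5 * r ≤ 16 * a ^ 5 * q := Nat.mul_le_mul_left _ (by omega)
        have h6 : 16 * a ^ 5 * r = r * (16 * a ^ 5) := by ring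
        omega
      exact_mod_cast this
    have c2 : (n : ℝ) ≤ (r : ℝ) * (16 * (a : ℝ) ^ 5) + (a : ℝ) * (16 * (a : ℝ) ^ 5) + (a : ℝ) := by
      have : n ≤ r * (16 * a ^ 5) + a * (16 * a ^ 5) + a := by
        have h5 : q + 1 = r + a := by omega
        rw [h5] at h2
        have h6 : 16 * a ^ 5 * (r + a) = r * (16 * a ^ 5) + a * (16 * a ^ 5) := by ring
        omega
      exact_mod_cast this
    have hlA0 : 0 ≤ Real.log (a : ℝ) := Real.log_nonneg (by linarith)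
    have hlA : Real.log (a : ℝ) ≤ (a : ℝ) := by
      have := Real.log_le_sub_one_of_pos hA0
      linarith
    have hlN0 : 0 ≤ Real.log (n : ℝ) := Real.log_nonneg (by
      have : (1 : ℝ) ≤ (n : ℝ) := by exact_mod_cast hn0
      exact this)
    have hs0 : 0 < Real.sqrt (n : ℝ) := Real.sqrt_pos.mpr hN0
    have hlN : Real.log (n : ℝ) ≤ 2 * Real.sqrt (n : ℝ) := by
      have h5 := Real.log_le_sub_one_of_pos hs0
      have h6 : Real.log (Real.sqrt (n : ℝ)) = Real.log (n : ℝ) / 2 := Real.log_sqrt hN0.le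
      rw [h6] at h5
      linarith
    have hsq : Real.sqrt (n : ℝ) * Real.sqrt (n : ℝ) = (n : ℝ) := Real.mul_self_sqrt hN0.le
    have h8 : 8 * (a : ℝ) ^ 3 ≤ Real.sqrt (n : ℝ) := by
      apply Real.le_sqrt_of_sq_le
      have h9 : (8 * (a : ℝ) ^ 3) ^ 2 = 64 * (a : ℝ) ^ 6 := by ring
      rw [h9]
      have h10 : (a : ℝ) ^ 6 ≤ (a : ℝ) ^ 9 := by exact_mod_cast p6
      have h11 : 0 ≤ (a : ℝ) ^ 9 := by positivity
      linarith
    have hℓ : 4 * (a : ℝ) ^ 3 * (2 * Real.sqrt (n : ℝ)) ≤ (n : ℝ) := by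
      calc 4 * (a : ℝ) ^ 3 * (2 * Real.sqrt (n : ℝ)) = 8 * (a : ℝ) ^ 3 * Real.sqrt (n : ℝ) := by ring
        _ ≤ Real.sqrt (n : ℝ) * Real.sqrt (n : ℝ) := mul_le_mul_of_nonneg_right h8 hs0.le
        _ = (n : ℝ) := hsq
    have hPM : Real.log ((a : ℝ) + 1) + Real.log ((a : ℝ) - 1) ≤ 2 * Real.log (a : ℝ) - 1 / (a : ℝ) ^ 2 := by
      have h5 : Real.log ((a : ℝ) + 1) + Real.log ((a : ℝ) - 1) =
          2 * Real.log (a : ℝ) + Real.log (1 - 1 / (a : ℝ) ^ 2) := by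
        have h6 : (0 : ℝ) < 1 - 1 / (a : ℝ) ^ 2 := by
          have h7 : 1 / (a : ℝ) ^ 2 < 1 := by
            rw [div_lt_one (by positivity)]
            nlinarith
          linarith
        rw [← Real.log_mul (by linarith) hA1.ne', two_mul, ← Real.log_mul hA0.ne' hA0.ne',
          ← Real.log_mul (by positivity) h6.ne']
        congr 1
        field_simp
        ring
      have h6 : Real.log (1 - 1 / (a : ℝ) ^ 2) ≤ - (1 / (a : ℝ) ^ 2) := by
        have h7 : (0 : ℝ) < 1 - 1 / (a : ℝ) ^ 2 := by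
          have h7 : 1 / (a : ℝ) ^ 2 < 1 := by
            rw [div_lt_one (by positivity)]
            nlinarith
          linarith
        have := Real.log_le_sub_one_of_pos h7
        linarith
      linarith
    have hlX : (16 * (a : ℝ) ^ 5) * Real.log (a : ℝ) - (a : ℝ) ^ 2 * Real.log (16 * (a : ℝ) ^ 4 + 1) ≤ Real.log (X : ℝ) := by
      have h5 : ((a ^ (a * (16 * a ^ 4)) : ℕ) : ℝ) ≤ ((X * (16 * a ^ 4 + 1) ^ (a * a) : ℕ) : ℝ) := by
        exact_mod_cast hX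
      push_cast at h5
      have h6 := Real.log_le_log (by positivity) h5
      rw [Real.log_pow, Real.log_mul hX0.ne' (by positivity), Real.log_pow] at h6
      push_cast at h6
      have h7 : (a : ℝ) * (16 * (a : ℝ) ^ 4) = 16 * (a : ℝ) ^ 5 := by ring
      rw [h7] at h6
      have h8 : (a : ℝ) ^ 2 = (a : ℝ) * (a : ℝ) := by ring
      rw [h8]
      linarith
    have key := C7_real (a : ℝ) (n : ℝ) (r : ℝ) (16 * (a : ℝ) ^ 5) (2 * Real.sqrt (n : ℝ)) (Real.log (a : ℝ))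
      (Real.log (16 * (a : ℝ) ^ 4 + 1)) (Real.log (n : ℝ)) (Real.log (X : ℝ)) (Real.log ((a : ℝ) + 1))
      (Real.log ((a : ℝ) - 1)) hA hN (Nat.cast_nonneg r) rfl c1 c2 hlA0 hlA (C7_log_L _ hA) hlN0 hlN hℓ hPM hlX
    -- back to natural numbers
    have hgoal : ((n ^ a * (a + 1) ^ (2 * n)) * (n ^ (a - 2) * (a - 1) ^ (2 * n)) : ℝ) ≤ (((X : ℝ) ^ r) ^ 2) ^ 2 := by
      have hpos : (0 : ℝ) < ((n : ℝ) ^ a * ((a : ℝ) + 1) ^ (2 * n)) * ((n : ℝ) ^ (a - 2) * ((a : ℝ) - 1) ^ (2 * n)) := by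
        positivity
      rw [← Real.log_le_log_iff hpos (by positivity)]
      rw [Real.log_mul (by positivity) (by positivity), Real.log_mul (by positivity) (by positivity),
        Real.log_mul (by positivity) (by positivity), Real.log_pow, Real.log_pow, Real.log_pow, Real.log_pow,
        Real.log_pow, Real.log_pow, Real.log_pow]
      have h5 : ((a - 2 : ℕ) : ℝ) = (a : ℝ) - 2 := by
        rw [Nat.cast_sub ha]
        norm_num
      rw [h5]
      push_cast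
      linarith
    have h6 : ((a - 1 : ℕ) : ℝ) = (a : ℝ) - 1 := by
      rw [Nat.cast_sub (by omega)]
      norm_num
    have h7 : (((n ^ a * (a + 1) ^ (2 * n)) * (n ^ (a - 2) * (a - 1) ^ (2 * n)) : ℕ) : ℝ) ≤ ((((X ^ r) ^ 2) ^ 2 : ℕ) : ℝ) := by
      push_cast
      rw [h6]
      exact hgoal
    exact_mod_cast h7

end KC98
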