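import Mathlib

/-!
# [KC98] The centralizer of the letter 1 in the plactic monoid: definitions
-/

namespace KC98

/-- One Knuth transposition: `y z x → y x z` for `x < y ≤ z`, and `x z y → z x y` for `x ≤ y < z`,
inside a word. -/
inductive KStep : List ℕ → List ℕ → Prop
  | a (u v : List ℕ) (x y z : ℕ) (h1 : x < y) (h2 : y ≤ z) :
      KStep (u ++ [y, z, x] ++ v) (u ++ [y, x, z] ++ v)
  | b (u v : List ℕ) (x y z : ℕ) (h1 : x ≤ y) (h2 : y < z) :
      KStep (u ++ [x, z, y] ++ v) (u ++ [z, x, y] ++ v)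

/-- Knuth equivalence. -/
def KEq : List ℕ → List ℕ → Prop := Relation.EqvGen KStep

/-- `w` commutes with the letter 1 in the plactic monoid: `1 w ≡ w 1`. -/
def Cent (w : List ℕ) : Prop := KEq (1 :: w) (w ++ [1])

/-- The words of length `n` with set of letters exactly `{1, ..., k}` which commute with 1. -/
def Bset (n k : ℕ) : Set (List ℕ) :=
  {w | w.length = n ∧ (∀ i, i ∈ w ↔ 1 ≤ i ∧ i ≤ k) ∧ Cent w}

/-- `b_{n,k}`. -/
noncomputable def b (n k : ℕ) : ℕ := (Bset n k).ncard

/-- There is a weakly increasing subword of length `r`. -/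
def Inc (w : List ℕ) (r : ℕ) : Prop :=
  ∃ l : List ℕ, l.Sublist w ∧ l.Pairwise (· ≤ ·) ∧ l.length = r

/-- In every suffix the number of 1s is at least the length of every weakly increasing subword
with letters larger than 1. -/
def Good (w : List ℕ) : Prop :=
  ∀ s : List ℕ, s <:+ w → ∀ l : List ℕ, l.Sublist s → l.Pairwise (· ≤ ·) → (∀ x ∈ l, 1 < x) →
    l.length ≤ s.count 1

/-- Words of length `a * L` in which each of the letters `1, ..., a` occurs exactly `L` times. -/
def Bal (a L : ℕ) : Set (List ℕ) :=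
  {w | w.length = a * L ∧ (∀ x ∈ w, 1 ≤ x ∧ x ≤ a) ∧ ∀ i, 1 ≤ i → i ≤ a → w.count i = L}

/-- Permutations of `2, ..., m + 1` (as words) all of whose increasing subwords have length
at most `a`. -/
def PermSet (m a : ℕ) : Set (List ℕ) :=
  {v | v.Nodup ∧ v.length = m ∧ (∀ x ∈ v, 2 ≤ x ∧ x ≤ m + 1) ∧
    ∀ l : List ℕ, l.Sublist v → l.Pairwise (· ≤ ·) → l.length ≤ a}

/-- Lattice words: each of the letters `1, ..., a` occurs `r` times, and in every prefix the letter
`i + 1` occurs at most as often as `i`. -/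
def Lat (a r : ℕ) : Set (List ℕ) :=
  {p | p.length = a * r ∧ (∀ x ∈ p, 1 ≤ x ∧ x ≤ a) ∧ (∀ i, 1 ≤ i → i ≤ a → p.count i = r) ∧
    ∀ q : List ℕ, q <+: p → ∀ i, 1 ≤ i → i < a → q.count (i + 1) ≤ q.count i}

end KC98
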