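import Pool.Agent.LibKC98.B2
import Pool.Agent.LibKC98.B4
import Pool.Agent.LibKC98.C2b
import Pool.Agent.LibKC98.C3
import Pool.Agent.LibKC98.C5
import Pool.Agent.LibKC98.C6b

/-!
# [KC98 G1] exponential growth rates at both ends
-/

namespace KC98

open Filter Topology

/-- the loss term tends to 0 -/
lemma G1_loss (c : ℝ) : Tendsto (fun L : ℕ => c * (Real.log ((L : ℝ) + 1) / L)) atTop (𝓝 0) := by
  have h1 : Tendsto (fun x : ℝ => Real.log x / x) atTop (𝓝 0) := by
    have := Real.isLittleO_log_id_atTop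
    exact this.tendsto_div_nhds_zero
  have h2 : Tendsto (fun L : ℕ => ((L : ℝ) + 1)) atTop atTop :=
    tendsto_atTop_add_const_right _ _ tendsto_natCast_atTop_atTop
  have h3 := h1.comp h2
  have h4 : Tendsto (fun L : ℕ => ((L : ℝ) + 1) / L) atTop (𝓝 1) := by
    have : Tendsto (fun L : ℕ => 1 + 1 / (L : ℝ)) atTop (𝓝 (1 + 0)) :=
      tendsto_const_nhds.add tendsto_one_div_atTop_nhds_zero_nat
    rw [add_zero] at this
    refine this.congr' ?_
    filter_upwards [eventually_gt_atTop 0] with L hL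
    have : (L : ℝ) ≠ 0 := by positivity
    field_simp
  have h5 := (h3.mul h4).const_mul c
  simp only [zero_mul, mul_zero] at h5
  refine h5.congr' ?_
  filter_upwards [eventually_gt_atTop 0] with L hL
  have : (L : ℝ) ≠ 0 := by positivity
  have h6 : ((L : ℝ) + 1) ≠ 0 := by positivity
  simp only [Function.comp]
  field_simp

/-- lower bound for the logarithm of the number of balanced words -/
lemma G1_logX (a L : ℕ) (ha : 0 < a) :
    1 ≤ (Bal a L).ncard ∧
      (a : ℝ) * L * Real.log a - (a : ℝ) * a * Real.log ((L : ℝ) + 1) ≤ Real.log ((Bal a L).ncard : ℝ) := by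
  have h := balanced_count a L ha
  have h0 : 1 ≤ (Bal a L).ncard := by
    rcases Nat.eq_zero_or_pos (Bal a L).ncard with h1 | h1
    · rw [h1, zero_mul] at h
      have : 0 < a ^ (a * L) := by positivity
      omega
    · exact h1
  refine ⟨h0, ?_⟩
  have h1 : ((a : ℝ)) ^ (a * L) ≤ ((Bal a L).ncard : ℝ) * ((L : ℝ) + 1) ^ (a * a) := by
    exact_mod_cast h
  have ha' : (0 : ℝ) < a := by exact_mod_cast ha
  have hX : (0 : ℝ) < ((Bal a L).ncard : ℝ) := by exact_mod_cast h0
  have h2 := Real.log_le_log (by positivity) h1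
  rw [Real.log_mul hX.ne' (by positivity), Real.log_pow, Real.log_pow] at h2
  push_cast at h2
  linarith

lemma G1_squeeze (f : ℕ → ℝ) (c : ℝ) (hu : ∀ ε > 0, ∀ᶠ n in atTop, f n ≤ c + ε)
    (hl : ∀ ε > 0, ∀ᶠ n in atTop, c - ε ≤ f n) : Tendsto f atTop (𝓝 c) := by
  rw [Metric.tendsto_atTop]
  intro ε hε
  obtain ⟨N1, h1⟩ := eventually_atTop.mp (hu (ε / 2) (by linarith))
  obtain ⟨N2, h2⟩ := eventually_atTop.mp (hl (ε / 2) (by linarith))
  refine ⟨max N1 N2, fun n hn => ?_⟩
  have e1 := h1 n ((le_max_left _ _).trans hn)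
  have e2 := h2 n ((le_max_right _ _).trans hn)
  rw [Real.dist_eq, abs_lt]
  constructor <;> linarith

theorem growth_left (k : ℕ) (hk : 2 ≤ k) :
    Tendsto (fun n : ℕ => Real.log (b n k : ℝ) / n) atTop (𝓝 (Real.log k)) := by
  have hk0 : (0 : ℝ) < k := by positivity
  have hlk : 0 ≤ Real.log k := Real.log_nonneg (by exact_mod_cast (by omega : 1 ≤ k))
  apply G1_squeeze
  · intro ε hε
    filter_upwards [eventually_gt_atTop 0] with n hn
    have hn' : (0 : ℝ) < n := by exact_mod_cast hn
    rw [div_le_iff₀ hn']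
    rcases Nat.eq_zero_or_pos (b n k) with h | h
    · rw [h]
      simp only [Nat.cast_zero, Real.log_zero]
      positivity
    · have h1 : (b n k : ℝ) ≤ (k : ℝ) ^ n := by exact_mod_cast b_le n k
      have h2 := Real.log_le_log (by exact_mod_cast h) h1
      rw [Real.log_pow] at h2
      nlinarith
  · intro ε hε
    -- choose L
    obtain ⟨L, hL0, hL⟩ : ∃ L : ℕ, 1 ≤ L ∧ (k : ℝ) * (Real.log ((L : ℝ) + 1) / L) < ε / 2 := by
      have h := (G1_loss k).eventually (gt_mem_nhds (by linarith : (0 : ℝ) < ε / 2))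
      obtain ⟨L, h1, h2⟩ := (h.and (eventually_ge_atTop 1)).exists
      exact ⟨L, h2, h1⟩
    have hB : 0 < k * L := by positivity
    obtain ⟨hX1, hX2⟩ := G1_logX k L (by omega)
    set X := (Bal k L).ncard with hXdef
    -- n large
    have hlarge : ∀ᶠ n : ℕ in atTop, ((2 * (k * L) : ℕ) : ℝ) * Real.log k ≤ ε / 2 * n := by
      have : Tendsto (fun n : ℕ => ε / 2 * (n : ℝ)) atTop atTop :=
        tendsto_natCast_atTop_atTop.const_mul_atTop (by linarith)
      exact this.eventually_ge_atTop _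
    filter_upwards [hlarge, eventually_ge_atTop (2 * (k * L))] with n hn1 hn2
    have hkL : (k - 1) * L ≤ k * L := Nat.mul_le_mul_right _ (by omega)
    obtain ⟨M, S, hM, hS, hS2, hnn⟩ : ∃ M S : ℕ, 1 ≤ M ∧ (k - 1) * L ≤ S ∧ S ≤ 2 * (k * L) ∧
        n = M * (k * L) + S := by
      refine ⟨(n - (k - 1) * L) / (k * L), n - (n - (k - 1) * L) / (k * L) * (k * L), ?_, ?_, ?_, ?_⟩
      · rw [Nat.le_div_iff_mul_le hB]; omega
      · have := Nat.div_mul_le_self (n - (k - 1) * L) (k * L); omega
      · have h1 := Nat.div_add_mod (n - (k - 1) * L) (k * L)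
        have h2 := Nat.mod_lt (n - (k - 1) * L) hB
        have h3 : (n - (k - 1) * L) / (k * L) * (k * L) = (k * L) * ((n - (k - 1) * L) / (k * L)) :=
          mul_comm _ _
        omega
      · have := Nat.div_mul_le_self (n - (k - 1) * L) (k * L); omega
    have hlow := left_lower k L S M hk hL0 hM hS
    rw [← hnn] at hlow
    have hn' : (0 : ℝ) < n := by
      have : 0 < n := by omega
      exact_mod_cast this
    rw [le_div_iff₀ hn']
    have h1 : ((X : ℝ)) ^ M ≤ (b n k : ℝ) := by exact_mod_cast hlow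
    have hXpos : (0 : ℝ) < X := by exact_mod_cast hX1
    have h2 := Real.log_le_log (by positivity) h1
    rw [Real.log_pow] at h2
    refine le_trans ?_ h2
    have hL' : (0 : ℝ) < L := by exact_mod_cast hL0
    -- k * log (L+1) ≤ ε/2 * L
    have h3 : (k : ℝ) * Real.log ((L : ℝ) + 1) ≤ ε / 2 * L := by
      have : (k : ℝ) * (Real.log ((L : ℝ) + 1) / L) * L ≤ ε / 2 * L :=
        mul_le_mul_of_nonneg_right hL.le hL'.le
      rwa [mul_assoc, div_mul_cancel₀ _ hL'.ne'] at this
    have h4 : (k : ℝ) * L * (Real.log k - ε / 2) ≤ Real.log X := by nlinarith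
    have h5 : (n : ℝ) = M * (k * L) + S := by exact_mod_cast hnn
    have hM' : (0 : ℝ) ≤ M := Nat.cast_nonneg _
    have h6 : (M : ℝ) * ((k : ℝ) * L * (Real.log k - ε / 2)) ≤ M * Real.log X :=
      mul_le_mul_of_nonneg_left h4 hM'
    refine le_trans ?_ h6
    have h7 : (M : ℝ) * ((k : ℝ) * L * (Real.log k - ε / 2)) = ((n : ℝ) - S) * (Real.log k - ε / 2) := by
      rw [h5]; ring
    rw [h7]
    have h8 : (S : ℝ) * Real.log k ≤ ε / 2 * n := by
      refine le_trans ?_ hn1
      have : (S : ℝ) ≤ ((2 * (k * L) : ℕ) : ℝ) := by exact_mod_cast hS2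
      exact mul_le_mul_of_nonneg_right this hlk
    have h9 : (0 : ℝ) ≤ S * (ε / 2) := by positivity
    nlinarith

theorem growth_right (j : ℕ) :
    Tendsto (fun n : ℕ => Real.log (b n (n - j) : ℝ) / n) atTop (𝓝 (2 * Real.log ((j : ℝ) + 1))) := by
  obtain ⟨a, ha⟩ : ∃ a, a = j + 1 := ⟨_, rfl⟩
  have haR : (j : ℝ) + 1 = a := by rw [ha]; push_cast; ring
  rw [haR]
  have ha1 : 1 ≤ a := by omega
  have ha0 : (0 : ℝ) < a := by positivity
  have hla : 0 ≤ Real.log a := Real.log_nonneg (by exact_mod_cast ha1)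
  apply G1_squeeze
  · intro ε hε
    have hlog : Tendsto (fun n : ℕ => (j : ℝ) * (Real.log n / n)) atTop (𝓝 0) := by
      have h1 : Tendsto (fun x : ℝ => Real.log x / x) atTop (𝓝 0) :=
        Real.isLittleO_log_id_atTop.tendsto_div_nhds_zero
      have h2 := (h1.comp tendsto_natCast_atTop_atTop).const_mul (j : ℝ)
      rw [mul_zero] at h2
      exact h2
    filter_upwards [hlog.eventually (gt_mem_nhds hε), eventually_gt_atTop j] with n hn1 hn2
    have hn' : (0 : ℝ) < n := by
      have : 0 < n := by omega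
      exact_mod_cast this
    have hlogn : 0 ≤ Real.log n := Real.log_nonneg (by exact_mod_cast (by omega : 1 ≤ n))
    rw [div_le_iff₀ hn']
    rcases Nat.eq_zero_or_pos (b n (n - j)) with h | h
    · rw [h]
      simp only [Nat.cast_zero, Real.log_zero]
      positivity
    · have h1 : (b n (n - j) : ℝ) ≤ (n : ℝ) ^ j * (a : ℝ) ^ (2 * n) := by
        have := right_upper n j hn2
        rw [← ha] at this
        exact_mod_cast this
      have h2 := Real.log_le_log (by exact_mod_cast h) h1
      rw [Real.log_mul (by positivity) (by positivity), Real.log_pow, Real.log_pow] at h2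
      have h3 : (j : ℝ) * Real.log n ≤ ε * n := by
        have : (j : ℝ) * (Real.log n / n) * n ≤ ε * n := mul_le_mul_of_nonneg_right hn1.le hn'.le
        rwa [mul_assoc, div_mul_cancel₀ _ hn'.ne'] at this
      push_cast at h2
      nlinarith
  · intro ε hε
    obtain ⟨L, hL0, hL⟩ : ∃ L : ℕ, 1 ≤ L ∧ (a : ℝ) * (Real.log ((L : ℝ) + 1) / L) < ε / 4 := by
      have h := (G1_loss a).eventually (gt_mem_nhds (by linarith : (0 : ℝ) < ε / 4))
      obtain ⟨L, h1, h2⟩ := (h.and (eventually_ge_atTop 1)).exists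
      exact ⟨L, h2, h1⟩
    have hB : 0 < a * L := by positivity
    obtain ⟨hX1, hX2⟩ := G1_logX a L (by omega)
    set X := (Bal a L).ncard with hXdef
    have hlarge : ∀ᶠ n : ℕ in atTop, ((a * (a * L) + a : ℕ) : ℝ) * (2 * Real.log a) ≤ ε / 2 * n := by
      have : Tendsto (fun n : ℕ => ε / 2 * (n : ℝ)) atTop atTop :=
        tendsto_natCast_atTop_atTop.const_mul_atTop (by linarith)
      exact this.eventually_ge_atTop _
    filter_upwards [hlarge, eventually_ge_atTop (a * (a * L) + a)] with n hn1 hn2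
    obtain ⟨r, hr1, hr2⟩ : ∃ r : ℕ, a * ((a - 1) * L + r * L) + a ≤ n ∧
        n ≤ r * (a * L) + (a * (a * L) + a) := by
      refine ⟨(n - a) / (a * L) - (a - 1), ?_, ?_⟩
      · have h1 := Nat.div_mul_le_self (n - a) (a * L)
        have h2 : a - 1 ≤ (n - a) / (a * L) := by
          rw [Nat.le_div_iff_mul_le hB]
          have : (a - 1) * (a * L) ≤ a * (a * L) := Nat.mul_le_mul_right _ (by omega)
          omega
        have h3 : a * ((a - 1) * L + ((n - a) / (a * L) - (a - 1)) * L) =
            (a - 1 + ((n - a) / (a * L) - (a - 1))) * (a * L) := by ring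
        rw [h3, Nat.add_sub_cancel' h2]
        have : a ≤ n := by omega
        omega
      · have h1 := Nat.div_add_mod (n - a) (a * L)
        have h2 := Nat.mod_lt (n - a) hB
        have h2' : a - 1 ≤ (n - a) / (a * L) := by
          rw [Nat.le_div_iff_mul_le hB]
          have : (a - 1) * (a * L) ≤ a * (a * L) := Nat.mul_le_mul_right _ (by omega)
          omega
        obtain ⟨t, ht⟩ : ∃ t, (n - a) / (a * L) = t + (a - 1) := ⟨_, (Nat.sub_add_cancel h2').symm⟩
        rw [ht] at h1 ⊢
        have h4 : (a * L) * (t + (a - 1)) + (a * L) = t * (a * L) + a * (a * L) := by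
          obtain ⟨a', rfl⟩ : ∃ a', a = a' + 1 := ⟨a - 1, by omega⟩
          simp only [Nat.add_sub_cancel]
          ring
        have h5 : t + (a - 1) - (a - 1) = t := by omega
        rw [h5]
        omega
    have hlow : (X ^ r) ^ 2 ≤ b n (n - j) := by
      have f1 := lat_lower a L r ha1
      have f2 := lat_perm a ((a - 1) * L + r * L) ha1
      have f3 := perm_mono (a * ((a - 1) * L + r * L)) (n - a) a ha1 (by omega)
      have f4 := perm_lower (n - a) a ha1
      rw [show n - a + a = n by omega, show n - a + 1 = n - j by omega] at f4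
      exact (Nat.pow_le_pow_left f1 2).trans (f2.trans (f3.trans f4))
    have hn' : (0 : ℝ) < n := by
      have : 0 < n := by omega
      exact_mod_cast this
    rw [le_div_iff₀ hn']
    have h1 : (((X : ℝ)) ^ r) ^ 2 ≤ (b n (n - j) : ℝ) := by exact_mod_cast hlow
    have hXpos : (0 : ℝ) < X := by exact_mod_cast hX1
    have h2 := Real.log_le_log (by positivity) h1
    rw [Real.log_pow, Real.log_pow] at h2
    refine le_trans ?_ h2
    have hL' : (0 : ℝ) < L := by exact_mod_cast hL0
    have h3 : (a : ℝ) * Real.log ((L : ℝ) + 1) ≤ ε / 4 * L := by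
      have : (a : ℝ) * (Real.log ((L : ℝ) + 1) / L) * L ≤ ε / 4 * L :=
        mul_le_mul_of_nonneg_right hL.le hL'.le
      rwa [mul_assoc, div_mul_cancel₀ _ hL'.ne'] at this
    have h4 : (a : ℝ) * L * (Real.log a - ε / 4) ≤ Real.log X := by nlinarith
    have hr' : (0 : ℝ) ≤ r := Nat.cast_nonneg _
    have h6 : (r : ℝ) * ((a : ℝ) * L * (Real.log a - ε / 4)) ≤ r * Real.log X :=
      mul_le_mul_of_nonneg_left h4 hr'
    have h5 : (n : ℝ) ≤ r * (a * L) + ((a * (a * L) + a : ℕ) : ℝ) := by exact_mod_cast hr2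
    have h5' : (r : ℝ) * (a * L) ≤ n := by
      have : r * (a * L) ≤ n := by
        have : a * ((a - 1) * L + r * L) = a * ((a - 1) * L) + r * (a * L) := by ring
        omega
      exact_mod_cast this
    set W : ℝ := ((a * (a * L) + a : ℕ) : ℝ) with hW
    have h7 : (2 : ℝ) * Real.log a * n ≤ 2 * Real.log a * (r * (a * L)) + W * (2 * Real.log a) := by
      have := mul_le_mul_of_nonneg_left h5 (by positivity : (0 : ℝ) ≤ 2 * Real.log a)
      linarith
    push_cast
    nlinarith

end KC98
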