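import Pool.Agent.LibKC98.A1
import Pool.Agent.LibKC98.B2
import Pool.Agent.LibKC98.B4
import Pool.Agent.LibKC98.B5
import Pool.Agent.LibKC98.C2b
import Pool.Agent.LibKC98.C3
import Pool.Agent.LibKC98.C5
import Pool.Agent.LibKC98.C6b
import Pool.Agent.LibKC98.C7

/-!
# [KC98 Main] log-concavity at both ends
-/

namespace KC98

theorem left_part (n k : ℕ) (hk : 2 ≤ k) (hn : 128 * k ^ 8 ≤ n) :
    b n (k - 1) * b n (k + 1) ≤ b n k ^ 2 := by
  obtain ⟨L, M, S, hL, hM, hS, hnn, hX⟩ := left_num n k hk hn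
  have h1 := hX _ (balanced_count k L (by omega))
  have h2 := left_lower k L S M hk hL hM hS
  rw [← hnn] at h2
  calc b n (k - 1) * b n (k + 1) ≤ (k - 1) ^ n * (k + 1) ^ n :=
        Nat.mul_le_mul (b_le n (k - 1)) (b_le n (k + 1))
    _ ≤ ((Bal k L).ncard ^ M) ^ 2 := h1
    _ ≤ b n k ^ 2 := Nat.pow_le_pow_left h2 2

theorem right_part (n k : ℕ) (hk : 2 ≤ k) (hn : 1000 * (n + 1 - k) ^ 9 ≤ n) :
    b n (k - 1) * b n (k + 1) ≤ b n k ^ 2 := by
  rcases le_or_gt n k with h | h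
  · rw [b_zero n (k + 1) (by omega)]
    simp
  · obtain ⟨a, ha⟩ : ∃ a, a = n + 1 - k := ⟨_, rfl⟩
    have ha2 : 2 ≤ a := by omega
    rw [← ha] at hn
    obtain ⟨L, r, h1, hX⟩ := right_num n a ha2 hn
    have h2 := hX _ (balanced_count a L (by omega))
    have e1 : b n (k - 1) ≤ n ^ a * (a + 1) ^ (2 * n) := by
      have := right_upper n a (by omega)
      rwa [show n - a = k - 1 by omega] at this
    have e2 : b n (k + 1) ≤ n ^ (a - 2) * (a - 1) ^ (2 * n) := by
      have := right_upper n (a - 2) (by omega)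
      rwa [show n - (a - 2) = k + 1 by omega, show a - 2 + 1 = a - 1 by omega] at this
    have e3 : ((Bal a L).ncard ^ r) ^ 2 ≤ b n k := by
      have f1 := lat_lower a L r (by omega)
      have f2 := lat_perm a ((a - 1) * L + r * L) (by omega)
      have f3 := perm_mono (a * ((a - 1) * L + r * L)) (n - a) a (by omega) (by omega)
      have f4 := perm_lower (n - a) a (by omega)
      rw [show n - a + a = n by omega, show n - a + 1 = k by omega] at f4
      exact (Nat.pow_le_pow_left f1 2).trans (f2.trans (f3.trans f4))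
    calc b n (k - 1) * b n (k + 1) ≤
          (n ^ a * (a + 1) ^ (2 * n)) * (n ^ (a - 2) * (a - 1) ^ (2 * n)) := Nat.mul_le_mul e1 e2
      _ ≤ (((Bal a L).ncard ^ r) ^ 2) ^ 2 := h2
      _ ≤ b n k ^ 2 := Nat.pow_le_pow_left e3 2

theorem main (n k : ℕ) (hk : 2 ≤ k) (hn : 128 * k ^ 8 ≤ n ∨ 1000 * (n + 1 - k) ^ 9 ≤ n) :
    b n (k - 1) * b n (k + 1) ≤ b n k ^ 2 := by
  rcases hn with h | h
  · exact left_part n k hk h
  · exact right_part n k hk h

end KC98
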